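import Mathlib

/-! Sums of distinct numbers `p^a q^b`: definitions and elementary facts. -/

set_option autoImplicit false

open Finset

namespace Pool.Agent.Q253.Bir

/-- the number `p^a q^b` -/
def v (p q : ℕ) (i : ℕ × ℕ) : ℕ := p ^ i.1 * q ^ i.2

/-- the number of finite sets of numbers `p^a q^b` with the sum `n` -/
noncomputable def f (p q n : ℕ) : ℕ :=
  Set.ncard {T : Finset ℕ | (∀ t ∈ T, ∃ a b : ℕ, t = p ^ a * q ^ b) ∧ ∑ t ∈ T, t = n}

/-- the number of subsets of `I` with the sum `n` -/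
def cnt (p q : ℕ) (I : Finset (ℕ × ℕ)) (n : ℕ) : ℕ :=
  (I.powerset.filter (fun A => ∑ i ∈ A, v p q i = n)).card

theorem v_inj {p q : ℕ} (hp : 1 < p) (hq : 1 < q) (h : Nat.Coprime p q) :
    Function.Injective (v p q) := by
  have key : ∀ a b a' b' : ℕ, a ≤ a' → p ^ a * q ^ b = p ^ a' * q ^ b' → a = a' ∧ b = b' := by
    intro a b a' b' hle he
    obtain ⟨c, rfl⟩ := Nat.exists_eq_add_of_le hle
    have h1 : q ^ b = p ^ c * q ^ b' := by
      have h2 : p ^ a * q ^ b = p ^ a * (p ^ c * q ^ b') := by rw [he, pow_add, mul_assoc]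
      exact Nat.eq_of_mul_eq_mul_left (by positivity) h2
    have hc : c = 0 := by
      by_contra hc
      have h3 : p ∣ q ^ b := by
        rw [h1]
        exact Dvd.dvd.mul_right (dvd_pow_self p hc) _
      have h4 : Nat.Coprime p (q ^ b) := Nat.Coprime.pow_right b h
      have h5 : p = 1 := Nat.Coprime.eq_one_of_dvd h4 h3
      omega
    subst hc
    refine ⟨by omega, ?_⟩
    rw [pow_zero, one_mul] at h1
    exact Nat.pow_right_injective hq h1
  rintro ⟨a, b⟩ ⟨a', b'⟩ he
  simp only [v] at he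
  rcases le_total a a' with hl | hl
  · obtain ⟨h1, h2⟩ := key a b a' b' hl he
    rw [h1, h2]
  · obtain ⟨h1, h2⟩ := key a' b' a b hl he.symm
    rw [h1, h2]

theorem v_pos {p q : ℕ} (hp : 1 < p) (hq : 1 < q) (i : ℕ × ℕ) : 0 < v p q i := by
  unfold v; positivity

theorem two_pow_le_v {p q : ℕ} (hp : 1 < p) (hq : 1 < q) (i : ℕ × ℕ) :
    2 ^ (i.1 + i.2) ≤ v p q i := by
  unfold v
  rw [pow_add]
  exact Nat.mul_le_mul (Nat.pow_le_pow_left hp _) (Nat.pow_le_pow_left hq _)

theorem finite_f {p q : ℕ} (n : ℕ) :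
    {T : Finset ℕ | (∀ t ∈ T, ∃ a b : ℕ, t = p ^ a * q ^ b) ∧ ∑ t ∈ T, t = n}.Finite := by
  refine Set.Finite.subset (Finset.finite_toSet ((range (n + 1)).powerset)) ?_
  rintro T ⟨_, hT⟩
  rw [mem_coe, mem_powerset]
  intro t ht
  rw [mem_range]
  have := Finset.single_le_sum (f := fun t : ℕ => t) (fun i _ => Nat.zero_le i) ht
  omega

/-- the sets of numbers and the sets of pairs of exponents -/
theorem cnt_le_f {p q : ℕ} (hp : 1 < p) (hq : 1 < q) (h : Nat.Coprime p q) (I : Finset (ℕ × ℕ))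
    (n : ℕ) : cnt p q I n ≤ f p q n := by
  classical
  unfold cnt f
  rw [← Set.ncard_coe_finset]
  refine Set.ncard_le_ncard_of_injOn (fun A => A.image (v p q)) ?_ ?_ (finite_f n)
  · intro A hA
    rw [mem_coe, mem_filter] at hA
    refine ⟨?_, ?_⟩
    · intro t ht
      obtain ⟨i, _, rfl⟩ := mem_image.1 ht
      exact ⟨i.1, i.2, rfl⟩
    · rw [sum_image (fun a _ b _ hab => v_inj hp hq h hab)]
      exact hA.2
  · intro A _ B _ hAB
    exact Finset.image_injective (v_inj hp hq h) hAB

theorem f_le_cnt {p q : ℕ} (hp : 1 < p) (hq : 1 < q) (h : Nat.Coprime p q) {I : Finset (ℕ × ℕ)}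
    {n : ℕ} (hI : range (n + 1) ×ˢ range (n + 1) ⊆ I) : f p q n ≤ cnt p q I n := by
  classical
  unfold cnt f
  rw [← Set.ncard_coe_finset]
  refine Set.ncard_le_ncard_of_injOn
    (fun T => (range (n + 1) ×ˢ range (n + 1)).filter (fun i => v p q i ∈ T)) ?_ ?_
    (Finset.finite_toSet _)
  · rintro T ⟨h1, h2⟩
    rw [mem_coe, mem_filter, mem_powerset]
    refine ⟨(filter_subset _ _).trans hI, ?_⟩
    have h3 : ((range (n + 1) ×ˢ range (n + 1)).filter (fun i => v p q i ∈ T)).image (v p q) = T := by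
      ext t
      rw [mem_image]
      constructor
      · rintro ⟨i, hi, rfl⟩
        exact (mem_filter.1 hi).2
      · intro ht
        obtain ⟨a, b, hab⟩ := h1 t ht
        have h4 : t ≤ n := by
          have := Finset.single_le_sum (f := fun t : ℕ => t) (fun i _ => Nat.zero_le i) ht
          omega
        have h5 := two_pow_le_v hp hq (a, b)
        have h6 : v p q (a, b) = t := hab.symm
        have h7 : a + b < 2 ^ (a + b) := Nat.lt_two_pow_self
        simp only at h5
        refine ⟨(a, b), ?_, h6⟩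
        rw [mem_filter, mem_product, mem_range, mem_range]
        refine ⟨⟨?_, ?_⟩, by rw [h6]; exact ht⟩
        · simp only; omega
        · simp only; omega
    conv_rhs => rw [← h2, ← h3]
    rw [sum_image (fun a _ b _ hab => v_inj hp hq h hab)]
  · rintro T ⟨h1, h2⟩ T' ⟨h1', h2'⟩ he
    have key : ∀ T T' : Finset ℕ, (∀ t ∈ T, ∃ a b : ℕ, t = p ^ a * q ^ b) → ∑ t ∈ T, t = n →
        (range (n + 1) ×ˢ range (n + 1)).filter (fun i => v p q i ∈ T) =
        (range (n + 1) ×ˢ range (n + 1)).filter (fun i => v p q i ∈ T') → T ⊆ T' := by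
      intro T T' h1 h2 he t ht
      obtain ⟨a, b, hab⟩ := h1 t ht
      have h4 : t ≤ n := by
        have := Finset.single_le_sum (f := fun t : ℕ => t) (fun i _ => Nat.zero_le i) ht
        omega
      have h5 := two_pow_le_v hp hq (a, b)
      have h6 : v p q (a, b) = t := hab.symm
      have h7 : a + b < 2 ^ (a + b) := Nat.lt_two_pow_self
      simp only at h5
      have h8 : (a, b) ∈ (range (n + 1) ×ˢ range (n + 1)).filter (fun i => v p q i ∈ T) := by
        rw [mem_filter, mem_product, mem_range, mem_range]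
        refine ⟨⟨?_, ?_⟩, by rw [h6]; exact ht⟩
        · simp only; omega
        · simp only; omega
      rw [he, mem_filter, h6] at h8
      exact h8.2
    exact Finset.Subset.antisymm (key T T' h1 h2 he) (key T' T h1' h2' he.symm)

end Pool.Agent.Q253.Bir
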