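import Pool.Agent.Q253.Bir.Basic

/-! Every large integer is a sum of distinct numbers `p^a q^b` (Birch 1959). -/

set_option autoImplicit false

open Finset

namespace Pool.Agent.Q253.Bir

/-- the pairs of exponents with `p^a q^b ≤ x` and `b ≡ r mod 3` -/
def E (p q r x : ℕ) : Finset (ℕ × ℕ) :=
  (range (x + 1) ×ˢ range (x + 1)).filter (fun i => v p q i ≤ x ∧ i.2 % 3 = r)

theorem mem_E {p q : ℕ} (hp : 1 < p) (hq : 1 < q) {r x : ℕ} {i : ℕ × ℕ} :
    i ∈ E p q r x ↔ v p q i ≤ x ∧ i.2 % 3 = r := by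
  unfold E
  rw [mem_filter, mem_product, mem_range, mem_range]
  constructor
  · exact fun h => h.2
  · intro h
    refine ⟨?_, h⟩
    have h5 := two_pow_le_v hp hq i
    have h7 : i.1 + i.2 < 2 ^ (i.1 + i.2) := Nat.lt_two_pow_self
    have := h.1
    constructor <;> omega

theorem sumbig {p q : ℕ} (hp : 1 < p) (hq : 1 < q) {r : ℕ} (hr : r < 3) :
    ∃ g : ℕ, ∀ x : ℕ, x ≤ ∑ i ∈ E p q r x, v p q i + g := by
  classical
  refine ⟨q ^ (r + 3 * p), fun x => ?_⟩
  by_cases hx : x < q ^ (r + 3 * p)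
  · omega
  push Not at hx
  refine le_trans ?_ (Nat.le_add_right _ _)
  set al : ℕ → ℕ := fun j => Nat.log p (x / q ^ (r + 3 * j)) with hal
  have hj : ∀ j < p, v p q (al j, r + 3 * j) ≤ x ∧ x < p * v p q (al j, r + 3 * j) := by
    intro j hj
    have h1 : q ^ (r + 3 * j) ≤ x := le_trans (Nat.pow_le_pow_right (by omega) (by omega)) hx
    have hqp : 0 < q ^ (r + 3 * j) := by positivity
    have h2 : x / q ^ (r + 3 * j) ≠ 0 := by
      have := Nat.div_pos h1 hqp
      omega
    have h3 : p ^ (al j) ≤ x / q ^ (r + 3 * j) := Nat.pow_log_le_self p h2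
    have h4 : x / q ^ (r + 3 * j) < p ^ (al j + 1) := Nat.lt_pow_succ_log_self hp _
    unfold v
    simp only
    constructor
    · calc p ^ al j * q ^ (r + 3 * j) ≤ x / q ^ (r + 3 * j) * q ^ (r + 3 * j) :=
            Nat.mul_le_mul_right _ h3
        _ ≤ x := Nat.div_mul_le_self _ _
    · rw [Nat.div_lt_iff_lt_mul hqp] at h4
      calc x < p ^ (al j + 1) * q ^ (r + 3 * j) := h4
        _ = p * (p ^ al j * q ^ (r + 3 * j)) := by ring
  have hinj : Set.InjOn (fun j : ℕ => ((al j, r + 3 * j) : ℕ × ℕ)) (range p : Set ℕ) := by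
    intro a _ b _ hab
    have := congrArg Prod.snd hab
    simp only at this
    omega
  have h5 : ((range p).image (fun j : ℕ => ((al j, r + 3 * j) : ℕ × ℕ))) ⊆ E p q r x := by
    intro i hi
    obtain ⟨j, hj', rfl⟩ := mem_image.1 hi
    rw [mem_E hp hq]
    refine ⟨(hj j (mem_range.1 hj')).1, ?_⟩
    simp only
    omega
  have h6 : ∑ i ∈ ((range p).image (fun j : ℕ => ((al j, r + 3 * j) : ℕ × ℕ))), v p q i
      ≤ ∑ i ∈ E p q r x, v p q i := sum_le_sum_of_subset h5
  rw [sum_image hinj] at h6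
  refine le_trans ?_ h6
  have h7 : ∑ j ∈ range p, x ≤ ∑ j ∈ range p, p * v p q (al j, r + 3 * j) :=
    sum_le_sum (fun j hj' => (hj j (mem_range.1 hj')).2.le)
  rw [sum_const, card_range, smul_eq_mul, ← mul_sum] at h7
  exact Nat.le_of_mul_le_mul_left h7 (by omega)

theorem gap_aux {p q : ℕ} (hp : 1 < p) (hq : 1 < q) (h : Nat.Coprime p q) {r g : ℕ}
    (hg : ∀ x : ℕ, x ≤ ∑ i ∈ E p q r x, v p q i + g) (x : ℕ) :
    ∀ y ≤ ∑ i ∈ E p q r x, v p q i, ∃ A ⊆ E p q r x, y ≤ ∑ i ∈ A, v p q i + g ∧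
      ∑ i ∈ A, v p q i ≤ y := by
  classical
  induction x with
  | zero =>
    intro y hy
    refine ⟨E p q r 0, Subset.rfl, ?_, ?_⟩
    · omega
    · have h1 : E p q r 0 = ∅ := by
        rw [eq_empty_iff_forall_notMem]
        intro i hi
        rw [mem_E hp hq] at hi
        have := v_pos hp hq i
        omega
      rw [h1]
      simp
  | succ x ih =>
    intro y hy
    by_cases hex : ∃ i, v p q i = x + 1 ∧ i.2 % 3 = r
    · obtain ⟨i₀, h1, h2⟩ := hex
      have h3 : E p q r (x + 1) = insert i₀ (E p q r x) := by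
        ext i
        rw [mem_insert, mem_E hp hq, mem_E hp hq]
        constructor
        · rintro ⟨h4, h5⟩
          by_cases h6 : v p q i ≤ x
          · exact Or.inr ⟨h6, h5⟩
          · left
            exact v_inj hp hq h (by omega)
        · rintro (rfl | ⟨h4, h5⟩)
          · exact ⟨by omega, h2⟩
          · exact ⟨by omega, h5⟩
      have h4 : i₀ ∉ E p q r x := by
        rw [mem_E hp hq]
        omega
      rw [h3, sum_insert h4, h1] at hy
      by_cases h5 : y ≤ ∑ i ∈ E p q r x, v p q i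
      · obtain ⟨A, hA, h6, h7⟩ := ih y h5
        exact ⟨A, hA.trans (by rw [h3]; exact subset_insert _ _), h6, h7⟩
      · by_cases h6 : x + 1 ≤ y
        · obtain ⟨A, hA, h7, h8⟩ := ih (y - (x + 1)) (by omega)
          have h9 : i₀ ∉ A := fun hh => h4 (hA hh)
          refine ⟨insert i₀ A, ?_, ?_, ?_⟩
          · rw [h3]
            exact insert_subset_insert _ hA
          · rw [sum_insert h9, h1]
            omega
          · rw [sum_insert h9, h1]
            omega
        · refine ⟨E p q r x, by rw [h3]; exact subset_insert _ _, ?_, ?_⟩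
          · have := hg x
            omega
          · omega
    · have h3 : E p q r (x + 1) = E p q r x := by
        ext i
        rw [mem_E hp hq, mem_E hp hq]
        constructor
        · rintro ⟨h4, h5⟩
          refine ⟨?_, h5⟩
          by_contra h6
          exact hex ⟨i, by omega, h5⟩
        · rintro ⟨h4, h5⟩
          exact ⟨by omega, h5⟩
      rw [h3] at hy ⊢
      exact ih y hy

/-- the sums have bounded gaps -/
theorem gaps {p q : ℕ} (hp : 1 < p) (hq : 1 < q) (h : Nat.Coprime p q) {r : ℕ} (hr : r < 3) :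
    ∃ g : ℕ, ∀ y : ℕ, ∃ A : Finset (ℕ × ℕ), (∀ i ∈ A, i.2 % 3 = r) ∧
      y ≤ ∑ i ∈ A, v p q i + g ∧ ∑ i ∈ A, v p q i ≤ y := by
  obtain ⟨g, hg⟩ := sumbig hp hq hr
  refine ⟨g, fun y => ?_⟩
  obtain ⟨A, hA, h1, h2⟩ := gap_aux hp hq h hg (y + g) y (by have := hg (y + g); omega)
  refine ⟨A, fun i hi => ?_, h1, h2⟩
  exact ((mem_E hp hq).1 (hA hi)).2

/-- multiplication by `p^m` -/
theorem sum_shift (p q m : ℕ) (A : Finset (ℕ × ℕ)) :
    ∑ i ∈ A.map ⟨fun i : ℕ × ℕ => (i.1 + m, i.2), fun a b hab => by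
      simp only [Prod.mk.injEq, Nat.add_right_cancel_iff] at hab
      exact Prod.ext hab.1 hab.2⟩, v p q i = p ^ m * ∑ i ∈ A, v p q i := by
  rw [sum_map, mul_sum]
  refine sum_congr rfl (fun i _ => ?_)
  show p ^ (i.1 + m) * q ^ i.2 = p ^ m * (p ^ i.1 * q ^ i.2)
  ring

/-- two sets of large elements with sums that differ by one -/
theorem pairs {p q : ℕ} (hp : 1 < p) (hq : 1 < q) (h : Nat.Coprime p q) (H : ℕ) :
    ∃ U V : Finset (ℕ × ℕ), (∀ i ∈ U, i.2 % 3 ≠ 1 ∧ H < v p q i) ∧
      (∀ i ∈ V, i.2 % 3 ≠ 1 ∧ H < v p q i) ∧ ∑ i ∈ U, v p q i = ∑ i ∈ V, v p q i + 1 := by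
  classical
  obtain ⟨g, hg⟩ := gaps hp hq h (r := 2) (by norm_num)
  -- the exponents
  set e : ℕ → ℕ := fun m => 3 * Nat.totient (p ^ m) with he
  have he1 : ∀ m, 1 ≤ e m := by
    intro m
    have : 0 < Nat.totient (p ^ m) := Nat.totient_pos.2 (by positivity)
    simp only [he]; omega
  have hK : ∀ m, ∃ K, q ^ (e m) = p ^ m * K + 1 := by
    intro m
    have h1 : q ^ (e m) ≡ 1 [MOD p ^ m] := by
      have h2 : Nat.Coprime q (p ^ m) := (Nat.Coprime.pow_left m h).symm
      have h3 := (Nat.ModEq.pow_totient h2).pow 3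
      rw [one_pow, ← pow_mul, mul_comm] at h3
      exact h3
    have h2 : 1 ≤ q ^ (e m) := Nat.one_le_pow _ _ (by omega)
    obtain ⟨K, hK⟩ := (Nat.modEq_iff_dvd' h2).1 h1.symm
    exact ⟨K, by omega⟩
  choose K hK using hK
  choose A hA1 hA2 hA3 using fun m => hg (K m)
  -- the same rest for two exponents
  have hpig : ∃ m m', m + H < m' ∧ K m - ∑ i ∈ A m, v p q i = K m' - ∑ i ∈ A m', v p q i := by
    by_contra hno
    push Not at hno
    have hinj : Set.InjOn (fun j : ℕ => K (j * (H + 1)) - ∑ i ∈ A (j * (H + 1)), v p q i)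
        (range (g + 2) : Set ℕ) := by
      intro a _ b _ hab
      simp only at hab
      by_contra hne
      rcases Nat.lt_or_gt_of_ne hne with hlt | hlt
      · refine hno (a * (H + 1)) (b * (H + 1)) ?_ hab
        have : (a + 1) * (H + 1) ≤ b * (H + 1) := Nat.mul_le_mul_right _ hlt
        linarith
      · refine hno (b * (H + 1)) (a * (H + 1)) ?_ hab.symm
        have : (b + 1) * (H + 1) ≤ a * (H + 1) := Nat.mul_le_mul_right _ hlt
        linarith
    have hmaps : ∀ j ∈ range (g + 2), K (j * (H + 1)) - ∑ i ∈ A (j * (H + 1)), v p q i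
        ∈ range (g + 1) := by
      intro j _
      rw [mem_range]
      have := hA2 (j * (H + 1))
      omega
    have := card_le_card_of_injOn _ hmaps hinj
    rw [card_range, card_range] at this
    omega
  obtain ⟨m, m', hm, hr⟩ := hpig
  set sh : (ℕ × ℕ) ↪ (ℕ × ℕ) := ⟨fun i : ℕ × ℕ => (i.1 + m', i.2), fun a b hab => by
      simp only [Prod.mk.injEq, Nat.add_right_cancel_iff] at hab
      exact Prod.ext hab.1 hab.2⟩ with hsh
  have hbig : ∀ k, H < k → H < p ^ k := fun k hk => lt_trans hk (Nat.lt_pow_self hp)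
  have hshmem : ∀ B : Finset (ℕ × ℕ), (∀ i ∈ B, i.2 % 3 = 2) → ∀ i ∈ B.map sh,
      i.2 % 3 = 2 ∧ H < v p q i := by
    intro B hB i hi
    rw [mem_map] at hi
    obtain ⟨j, hj, rfl⟩ := hi
    refine ⟨hB j hj, ?_⟩
    have h1 : v p q (sh j) = p ^ m' * v p q j := by
      show p ^ (j.1 + m') * q ^ j.2 = p ^ m' * (p ^ j.1 * q ^ j.2)
      ring
    rw [h1]
    have h2 := v_pos hp hq j
    have h3 := hbig m' (by omega)
    calc H < p ^ m' := h3
      _ = p ^ m' * 1 := (mul_one _).symm
      _ ≤ p ^ m' * v p q j := Nat.mul_le_mul_left _ h2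
  have hne1 : ((m' - m, 0) : ℕ × ℕ) ≠ (0, e m') := by
    intro hh
    have := congrArg Prod.fst hh
    simp only at this
    omega
  have hn1 : ((m' - m, 0) : ℕ × ℕ) ∉ (A m \ A m').map sh := by
    intro hh
    have h1 := (hshmem (A m \ A m') (fun i hi => hA1 m i (mem_sdiff.1 hi).1) _ hh).1
    simp at h1
  have he3 : ∀ m, e m % 3 = 0 := fun m => by simp only [he]; omega
  have hn2 : ((0, e m') : ℕ × ℕ) ∉ (A m \ A m').map sh := by
    intro hh
    have h1 := (hshmem (A m \ A m') (fun i hi => hA1 m i (mem_sdiff.1 hi).1) _ hh).1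
    simp only at h1
    have := he3 m'
    omega
  have hn3 : ((m' - m, e m) : ℕ × ℕ) ∉ (A m' \ A m).map sh := by
    intro hh
    have h1 := (hshmem (A m' \ A m) (fun i hi => hA1 m' i (mem_sdiff.1 hi).1) _ hh).1
    simp only at h1
    have := he3 m
    omega
  refine ⟨insert (m' - m, 0) (insert (0, e m') ((A m \ A m').map sh)),
    insert (m' - m, e m) ((A m' \ A m).map sh), ?_, ?_, ?_⟩
  · intro i hi
    rw [mem_insert, mem_insert] at hi
    rcases hi with rfl | rfl | hi
    · refine ⟨by norm_num, ?_⟩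
      simp only [v, pow_zero, mul_one]
      exact hbig _ (by omega)
    · refine ⟨?_, ?_⟩
      · simp only
        have := he3 m'
        omega
      · simp only [v, pow_zero, one_mul]
        have h1 := hK m'
        have h2 : q ≤ q ^ (e m') := by
          calc q = q ^ 1 := (pow_one q).symm
            _ ≤ q ^ (e m') := Nat.pow_le_pow_right (by omega) (he1 m')
        have h3 : K m' ≠ 0 := by
          intro h0
          rw [h0, mul_zero] at h1
          omega
        have h4 : p ^ m' * 1 ≤ p ^ m' * K m' := Nat.mul_le_mul_left _ (by omega)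
        have h5 := hbig m' (by omega)
        omega
    · have := hshmem (A m \ A m') (fun i hi => hA1 m i (mem_sdiff.1 hi).1) _ hi
      exact ⟨by omega, this.2⟩
  · intro i hi
    rw [mem_insert] at hi
    rcases hi with rfl | hi
    · refine ⟨?_, ?_⟩
      · simp only
        have := he3 m
        omega
      · simp only [v]
        have h1 := hbig (m' - m) (by omega)
        have h2 : 1 ≤ q ^ (e m) := Nat.one_le_pow _ _ (by omega)
        calc H < p ^ (m' - m) := h1
          _ = p ^ (m' - m) * 1 := (mul_one _).symm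
          _ ≤ _ := Nat.mul_le_mul_left _ h2
    · have := hshmem (A m' \ A m) (fun i hi => hA1 m' i (mem_sdiff.1 hi).1) _ hi
      exact ⟨by omega, this.2⟩
  · rw [sum_insert, sum_insert hn2, sum_insert hn3, sum_shift, sum_shift]
    · have h1 : ∑ i ∈ A m \ A m', v p q i + ∑ i ∈ A m ∩ A m', v p q i = ∑ i ∈ A m, v p q i := by
        rw [add_comm]
        exact sum_inter_add_sum_sdiff _ _ _
      have h2 : ∑ i ∈ A m' \ A m, v p q i + ∑ i ∈ A m ∩ A m', v p q i = ∑ i ∈ A m', v p q i := by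
        rw [add_comm, inter_comm]
        exact sum_inter_add_sum_sdiff _ _ _
      simp only [v, pow_zero, mul_one, one_mul] at *
      have h3 := hK m
      have h4 := hK m'
      obtain ⟨d, rfl⟩ : ∃ d, m' = m + d := ⟨m' - m, by omega⟩
      have h5 : m + d - m = d := by omega
      rw [h5, h3, h4]
      generalize hX : ∑ x ∈ A m \ A (m + d), p ^ x.1 * q ^ x.2 = X at *
      generalize hY : ∑ x ∈ A (m + d) \ A m, p ^ x.1 * q ^ x.2 = Y at *
      generalize hZ : ∑ x ∈ A m ∩ A (m + d), p ^ x.1 * q ^ x.2 = Z at *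
      have h6 := hA3 m
      have h7 := hA3 (m + d)
      obtain ⟨r, hr'⟩ : ∃ r, K m = X + Z + r := ⟨K m - (X + Z), by omega⟩
      have hr2 : K (m + d) = Y + Z + r := by omega
      rw [hr', hr2]
      ring
    · rw [mem_insert]
      rintro (hh | hh)
      · exact hne1 hh
      · exact hn1 hh

theorem steps {p q : ℕ} (hp : 1 < p) (hq : 1 < q) (h : Nat.Coprime p q) (d : ℕ) :
    ∃ H b : ℕ, ∀ e ≤ d, ∃ W : Finset (ℕ × ℕ), (∀ i ∈ W, i.2 % 3 ≠ 1 ∧ v p q i ≤ H) ∧
      ∑ i ∈ W, v p q i = b + e := by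
  classical
  induction d with
  | zero =>
    refine ⟨0, 0, fun e he => ⟨∅, by simp, ?_⟩⟩
    rw [sum_empty]
    omega
  | succ d ih =>
    obtain ⟨H, b, ih⟩ := ih
    obtain ⟨U, V, hU, hV, hUV⟩ := pairs hp hq h H
    refine ⟨H + ∑ i ∈ U, v p q i + ∑ i ∈ V, v p q i, b + ∑ i ∈ V, v p q i, fun e he => ?_⟩
    rcases Nat.lt_or_ge d e with hlt | hle
    · have : e = d + 1 := by omega
      subst this
      obtain ⟨W, hW, hs⟩ := ih d le_rfl
      have hdisj : Disjoint W U := by
        rw [disjoint_left]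
        intro i h1 h2
        have := (hW i h1).2
        have := (hU i h2).2
        omega
      refine ⟨W ∪ U, ?_, ?_⟩
      · intro i hi
        rcases mem_union.1 hi with h1 | h1
        · exact ⟨(hW i h1).1, by have := (hW i h1).2; omega⟩
        · refine ⟨(hU i h1).1, ?_⟩
          have := Finset.single_le_sum (f := v p q) (fun i _ => Nat.zero_le _) h1
          omega
      · rw [sum_union hdisj, hs, hUV]
        ring
    · obtain ⟨W, hW, hs⟩ := ih e hle
      have hdisj : Disjoint W V := by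
        rw [disjoint_left]
        intro i h1 h2
        have := (hW i h1).2
        have := (hV i h2).2
        omega
      refine ⟨W ∪ V, ?_, ?_⟩
      · intro i hi
        rcases mem_union.1 hi with h1 | h1
        · exact ⟨(hW i h1).1, by have := (hW i h1).2; omega⟩
        · refine ⟨(hV i h1).1, ?_⟩
          have := Finset.single_le_sum (f := v p q) (fun i _ => Nat.zero_le _) h1
          omega
      · rw [sum_union hdisj, hs]
        ring

/-- Birch's theorem -/
theorem birch {p q : ℕ} (hp : 1 < p) (hq : 1 < q) (h : Nat.Coprime p q) :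
    ∃ n₀ : ℕ, ∀ n : ℕ, n₀ ≤ n → ∃ A : Finset (ℕ × ℕ), ∑ i ∈ A, v p q i = n := by
  classical
  obtain ⟨g, hg⟩ := gaps hp hq h (r := 1) (by norm_num)
  obtain ⟨H, b, hs⟩ := steps hp hq h g
  refine ⟨b, fun n hn => ?_⟩
  obtain ⟨A, hA1, hA2, hA3⟩ := hg (n - b)
  obtain ⟨W, hW, hW2⟩ := hs (n - b - ∑ i ∈ A, v p q i) (by omega)
  have hdisj : Disjoint A W := by
    rw [disjoint_left]
    intro i h1 h2
    exact (hW i h2).1 (hA1 i h1)
  refine ⟨A ∪ W, ?_⟩
  rw [sum_union hdisj, hW2]
  omega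

end Pool.Agent.Q253.Bir
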