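import Pool.Agent.Q253.Bir.Basic

/-! The function `∑ log (1 + exp (-lam s))` over the numbers `s = p^a q^b`. -/

set_option autoImplicit false

open Finset

namespace Pool.Agent.Q253.Bir

/-- `log (1 + e^(-x))` -/
noncomputable def g (x : ℝ) : ℝ := Real.log (1 + Real.exp (-x))

theorem g_nonneg (x : ℝ) : 0 ≤ g x := by
  unfold g
  refine Real.log_nonneg ?_
  have := Real.exp_pos (-x)
  linarith

theorem g_le_exp (x : ℝ) : g x ≤ Real.exp (-x) := by
  unfold g
  have := Real.exp_pos (-x)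
  have h := Real.log_le_sub_one_of_pos (show 0 < 1 + Real.exp (-x) by linarith)
  linarith

theorem sq_le_exp {x : ℝ} (hx : 0 ≤ x) : x ^ 2 ≤ 4 * Real.exp x := by
  have h1 := Real.add_one_le_exp (x / 2)
  have h2 : Real.exp x = Real.exp (x / 2) ^ 2 := by
    rw [← Real.exp_nat_mul]; congr 1; push_cast; ring
  rw [h2]
  nlinarith [Real.exp_pos (x / 2)]

theorem exp_neg_le {x : ℝ} (hx : 0 < x) : Real.exp (-x) ≤ 4 / x ^ 2 := by
  rw [Real.exp_neg, le_div_iff₀ (by positivity), inv_mul_le_iff₀ (Real.exp_pos x)]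
  linarith [sq_le_exp hx.le]

theorem g_le_sq {x : ℝ} (hx : 0 < x) : g x ≤ 4 / x ^ 2 := (g_le_exp x).trans (exp_neg_le hx)

theorem g_anti {x y : ℝ} (h : x ≤ y) : g y ≤ g x := by
  unfold g
  refine Real.log_le_log (by have := Real.exp_pos (-y); linarith) ?_
  have := Real.exp_le_exp.2 (show -y ≤ -x by linarith)
  linarith

theorem g_le_log {x : ℝ} (hx : 0 ≤ x) : g x ≤ Real.log 2 := by
  refine (g_anti hx).trans ?_
  unfold g
  rw [neg_zero, Real.exp_zero]
  norm_num

theorem le_g (x : ℝ) : Real.log 2 - x / 2 ≤ g x := by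
  unfold g
  have h1 : (1 + Real.exp (-x)) ≥ 2 * Real.exp (-(x / 2)) := by
    have h2 : Real.exp (-x) = Real.exp (-(x / 2)) ^ 2 := by
      rw [← Real.exp_nat_mul]; congr 1; push_cast; ring
    rw [h2]
    nlinarith [sq_nonneg (1 - Real.exp (-(x / 2)))]
  have h3 := Real.log_le_log (by positivity) h1
  rw [Real.log_mul (by norm_num) (Real.exp_pos _).ne', Real.log_exp] at h3
  linarith

/-- the sum over the powers of `r` -/
noncomputable def E1 (r : ℕ) (lam : ℝ) : ℝ := ∑' b : ℕ, g (lam * (r : ℝ) ^ b)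

/-- the sum over the numbers `p^a q^b` -/
noncomputable def D (p q : ℕ) (lam : ℝ) : ℝ := ∑' i : ℕ × ℕ, g (lam * v p q i)

theorem g_pow_le {r : ℕ} (hr : 1 < r) {lam : ℝ} (hl : 0 < lam) (b : ℕ) :
    g (lam * (r : ℝ) ^ b) ≤ 4 / lam ^ 2 * (1 / 4) ^ b := by
  have hr' : (2 : ℝ) ≤ r := by exact_mod_cast hr
  have h1 : (2 : ℝ) ^ b ≤ (r : ℝ) ^ b := pow_le_pow_left₀ (by norm_num) hr' b
  refine (g_le_sq (by positivity)).trans ?_
  have h2 : ((1 : ℝ) / 4) ^ b = 1 / ((2 : ℝ) ^ b) ^ 2 := by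
    rw [one_div, inv_pow, ← one_div, ← pow_mul, mul_comm b 2, pow_mul]; norm_num
  rw [h2, div_mul_div_comm, mul_one, mul_pow]
  refine div_le_div_of_nonneg_left (by norm_num) (by positivity) ?_
  have h3 : ((2 : ℝ) ^ b) ^ 2 ≤ ((r : ℝ) ^ b) ^ 2 := pow_le_pow_left₀ (by positivity) h1 2
  nlinarith [sq_nonneg lam]

theorem summable_g_pow {r : ℕ} (hr : 1 < r) {lam : ℝ} (hl : 0 < lam) :
    Summable (fun b : ℕ => g (lam * (r : ℝ) ^ b)) := by
  refine Summable.of_nonneg_of_le (fun b => g_nonneg _) (g_pow_le hr hl) ?_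
  exact (summable_geometric_of_lt_one (by norm_num) (by norm_num)).mul_left _

theorem g_v_le {p q : ℕ} (hp : 1 < p) (hq : 1 < q) {lam : ℝ} (hl : 0 < lam) (i : ℕ × ℕ) :
    g (lam * v p q i) ≤ 4 / lam ^ 2 * ((1 / 4) ^ i.1 * (1 / 4) ^ i.2) := by
  have h1 : (2 : ℝ) ^ (i.1 + i.2) ≤ (v p q i : ℝ) := by
    exact_mod_cast two_pow_le_v hp hq i
  have hv : (0 : ℝ) < v p q i := by exact_mod_cast v_pos hp hq i
  refine (g_le_sq (by positivity)).trans ?_
  have h2 : ((1 : ℝ) / 4) ^ i.1 * (1 / 4) ^ i.2 = 1 / ((2 : ℝ) ^ (i.1 + i.2)) ^ 2 := by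
    rw [← pow_add, one_div, inv_pow, ← one_div, ← pow_mul, mul_comm _ 2, pow_mul]; norm_num
  rw [h2, div_mul_div_comm, mul_one, mul_pow]
  refine div_le_div_of_nonneg_left (by norm_num) (by positivity) ?_
  have h3 : ((2 : ℝ) ^ (i.1 + i.2)) ^ 2 ≤ (v p q i : ℝ) ^ 2 := pow_le_pow_left₀ (by positivity) h1 2
  nlinarith [sq_nonneg lam]

theorem summable_pair : Summable (fun i : ℕ × ℕ => ((1 : ℝ) / 4) ^ i.1 * (1 / 4) ^ i.2) := by
  have h := summable_geometric_of_lt_one (r := (1 : ℝ) / 4) (by norm_num) (by norm_num)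
  exact h.mul_of_nonneg h (fun n => by positivity) (fun n => by positivity)

theorem summable_g_v {p q : ℕ} (hp : 1 < p) (hq : 1 < q) {lam : ℝ} (hl : 0 < lam) :
    Summable (fun i : ℕ × ℕ => g (lam * v p q i)) :=
  Summable.of_nonneg_of_le (fun _ => g_nonneg _) (g_v_le hp hq hl) (summable_pair.mul_left _)

theorem D_anti {p q : ℕ} (hp : 1 < p) (hq : 1 < q) {lam mu : ℝ} (hl : 0 < lam) (h : lam ≤ mu) :
    D p q mu ≤ D p q lam := by
  refine (summable_g_v hp hq (hl.trans_le h)).tsum_le_tsum (fun i => ?_) (summable_g_v hp hq hl)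
  refine g_anti (mul_le_mul_of_nonneg_right h ?_)
  positivity

theorem D_rec1 {p q : ℕ} (hp : 1 < p) (hq : 1 < q) {lam : ℝ} (hl : 0 < lam) :
    D p q lam = E1 q lam + D p q (p * lam) := by
  have hp0 : (0 : ℝ) < p := by exact_mod_cast (by omega : 0 < p)
  have h1 := summable_g_v hp hq hl
  have h2 := summable_g_v hp hq (mul_pos hp0 hl)
  unfold D E1
  rw [h1.tsum_prod, h2.tsum_prod, h1.prod.tsum_eq_zero_add]
  congr 1
  · refine tsum_congr (fun b => ?_)
    simp [v]
  · refine tsum_congr (fun a => tsum_congr (fun b => ?_))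
    congr 1
    simp only [v]
    push_cast
    ring

theorem D_rec2 {p q : ℕ} (hp : 1 < p) (hq : 1 < q) {lam : ℝ} (hl : 0 < lam) :
    D p q lam = E1 p lam + D p q (q * lam) := by
  have hq0 : (0 : ℝ) < q := by exact_mod_cast (by omega : 0 < q)
  have hsw : ∀ mu : ℝ, D p q mu = D q p mu := by
    intro mu
    unfold D
    rw [← (Equiv.prodComm ℕ ℕ).tsum_eq (fun i : ℕ × ℕ => g (mu * v p q i))]
    refine tsum_congr (fun i => ?_)
    congr 2
    simp only [v, Equiv.prodComm_apply, Prod.fst_swap, Prod.snd_swap]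
    rw [mul_comm]
  rw [hsw, hsw, D_rec1 hq hp hl]

theorem E1_bounds {r : ℕ} (hr : 1 < r) : ∃ C : ℝ, ∀ lam : ℝ, 0 < lam → lam ≤ 1 →
    |E1 r lam - Real.log 2 / Real.log r * Real.log (1 / lam)| ≤ C := by
  have hr' : (2 : ℝ) ≤ r := by exact_mod_cast hr
  have hlr : 0 < Real.log r := Real.log_pos (by linarith)
  refine ⟨Real.log 2 + 16 / 3 + r / 2, fun lam hl hl1 => ?_⟩
  have hL : 0 ≤ Real.log (1 / lam) := Real.log_nonneg (by rw [le_div_iff₀ hl]; linarith)
  set y := Real.log (1 / lam) / Real.log r with hy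
  have hy0 : 0 ≤ y := by positivity
  set m := ⌊y⌋₊ + 1 with hm
  have hm1 : (m : ℝ) ≤ y + 1 := by
    rw [hm]; push_cast
    have := Nat.floor_le hy0
    linarith
  have hm2 : y ≤ (m : ℝ) := by
    rw [hm]; push_cast
    exact (Nat.lt_floor_add_one y).le
  have hrm : 1 / lam ≤ (r : ℝ) ^ m := by
    have h1 : Real.log (1 / lam) ≤ m * Real.log r := by
      rw [hy, div_le_iff₀ hlr] at hm2
      exact hm2
    rw [← Real.log_pow] at h1
    exact (Real.log_le_log_iff (by positivity) (by positivity)).1 h1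
  have hrm2 : (r : ℝ) ^ m ≤ r / lam := by
    rw [hm, pow_succ]
    have h2 : (r : ℝ) ^ ⌊y⌋₊ ≤ 1 / lam := by
      have h1 : (⌊y⌋₊ : ℝ) * Real.log r ≤ Real.log (1 / lam) := by
        have := Nat.floor_le hy0
        rw [hy, le_div_iff₀ hlr] at this
        exact this
      rw [← Real.log_pow] at h1
      exact (Real.log_le_log_iff (by positivity) (by positivity)).1 h1
    calc (r : ℝ) ^ ⌊y⌋₊ * r ≤ 1 / lam * r := mul_le_mul_of_nonneg_right h2 (by positivity)
      _ = r / lam := by ring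
  have hs := summable_g_pow hr hl
  have hsplit : E1 r lam = ∑ b ∈ range m, g (lam * (r : ℝ) ^ b) +
      ∑' b : ℕ, g (lam * (r : ℝ) ^ (b + m)) := by
    unfold E1
    exact (hs.sum_add_tsum_nat_add m).symm
  have htail : ∑' b : ℕ, g (lam * (r : ℝ) ^ (b + m)) ≤ 16 / 3 := by
    have hgeo : HasSum (fun b : ℕ => (4 : ℝ) * (1 / 4) ^ b) (16 / 3) := by
      have h20 := (hasSum_geometric_of_lt_one (r := (1 : ℝ) / 4) (by norm_num) (by norm_num)).mul_left 4
      have e : (16 / 3 : ℝ) = 4 * (1 - 1 / 4)⁻¹ := by norm_num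
      rw [e]
      exact h20
    rw [← hgeo.tsum_eq]
    refine ((summable_nat_add_iff m).2 hs).tsum_le_tsum (fun b => ?_) hgeo.summable
    have h3 : (r : ℝ) ^ b ≤ lam * (r : ℝ) ^ (b + m) := by
      rw [pow_add]
      have h4 : 1 ≤ lam * (r : ℝ) ^ m := by
        rw [div_le_iff₀ hl] at hrm
        linarith
      calc (r : ℝ) ^ b = (r : ℝ) ^ b * 1 := (mul_one _).symm
        _ ≤ (r : ℝ) ^ b * (lam * (r : ℝ) ^ m) := mul_le_mul_of_nonneg_left h4 (by positivity)
        _ = _ := by ring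
    refine (g_anti h3).trans ?_
    have h5 := g_pow_le hr one_pos b
    rw [one_mul, one_pow, div_one] at h5
    exact h5
  have htail0 : 0 ≤ ∑' b : ℕ, g (lam * (r : ℝ) ^ (b + m)) := tsum_nonneg (fun b => g_nonneg _)
  have hup : ∑ b ∈ range m, g (lam * (r : ℝ) ^ b) ≤ m * Real.log 2 := by
    calc ∑ b ∈ range m, g (lam * (r : ℝ) ^ b) ≤ ∑ b ∈ range m, Real.log 2 :=
          sum_le_sum (fun b _ => g_le_log (by positivity))
      _ = m * Real.log 2 := by rw [sum_const, card_range, nsmul_eq_mul]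
  have hlow : m * Real.log 2 - r / 2 ≤ ∑ b ∈ range m, g (lam * (r : ℝ) ^ b) := by
    have h6 : ∑ b ∈ range m, (Real.log 2 - lam * (r : ℝ) ^ b / 2) ≤
        ∑ b ∈ range m, g (lam * (r : ℝ) ^ b) := sum_le_sum (fun b _ => le_g _)
    have h7 : ∑ b ∈ range m, (Real.log 2 - lam * (r : ℝ) ^ b / 2) =
        m * Real.log 2 - lam / 2 * ∑ b ∈ range m, (r : ℝ) ^ b := by
      rw [sum_sub_distrib, sum_const, card_range, nsmul_eq_mul, mul_sum]
      congr 1
      exact sum_congr rfl (fun b _ => by ring)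
    have h8 : ∑ b ∈ range m, (r : ℝ) ^ b ≤ (r : ℝ) ^ m := by
      have h9 := geom_sum_mul (r : ℝ) m
      have h10 : 0 ≤ ∑ b ∈ range m, (r : ℝ) ^ b := sum_nonneg (fun b _ => by positivity)
      nlinarith
    have h11 : lam / 2 * ∑ b ∈ range m, (r : ℝ) ^ b ≤ r / 2 := by
      calc lam / 2 * ∑ b ∈ range m, (r : ℝ) ^ b ≤ lam / 2 * (r / lam) :=
            mul_le_mul_of_nonneg_left (h8.trans hrm2) (by positivity)
        _ = r / 2 := by field_simp
    linarith
  have hl2 : 0 < Real.log 2 := Real.log_pos (by norm_num)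
  have hmain : Real.log 2 / Real.log r * Real.log (1 / lam) = y * Real.log 2 := by
    rw [hy]; ring
  rw [hmain, hsplit, abs_le]
  have h12 : (m : ℝ) * Real.log 2 ≤ (y + 1) * Real.log 2 := mul_le_mul_of_nonneg_right hm1 hl2.le
  have h13 : y * Real.log 2 ≤ m * Real.log 2 := mul_le_mul_of_nonneg_right hm2 hl2.le
  constructor <;> nlinarith

/-- the exponent per unit of `log l` -/
noncomputable def c0 (p q : ℕ) : ℝ := Real.log 2 / (Real.log p * Real.log q)

/-- `D (e^-(t + x)) - D (e^-t) = c0 x t + O(1)` -/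
def Pr (p q : ℕ) (x : ℝ) : Prop :=
  ∃ C : ℝ, 0 ≤ C ∧ ∀ t : ℝ, C ≤ t →
    |D p q (Real.exp (-(t + x))) - D p q (Real.exp (-t)) - c0 p q * x * t| ≤ C

theorem Pr_zero (p q : ℕ) : Pr p q 0 := ⟨0, le_rfl, fun t _ => by simp⟩

theorem Pr_add {p q : ℕ} {x y : ℝ} (hx : Pr p q x) (hy : Pr p q y) : Pr p q (x + y) := by
  obtain ⟨C, hC0, hC⟩ := hx
  obtain ⟨C', hC0', hC'⟩ := hy
  refine ⟨C + C' + |x| + |c0 p q * y * x|, by positivity, fun t ht => ?_⟩
  have h1 := hC t (by have := abs_nonneg x; have := abs_nonneg (c0 p q * y * x); linarith)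
  have h2 := hC' (t + x) (by
    have := neg_abs_le x; have := abs_nonneg (c0 p q * y * x); linarith)
  have e : t + (x + y) = t + x + y := by ring
  rw [e]
  have h3 : D p q (Real.exp (-(t + x + y))) - D p q (Real.exp (-t)) - c0 p q * (x + y) * t =
      (D p q (Real.exp (-(t + x + y))) - D p q (Real.exp (-(t + x))) - c0 p q * y * (t + x)) +
      (D p q (Real.exp (-(t + x))) - D p q (Real.exp (-t)) - c0 p q * x * t) +
      c0 p q * y * x := by ring
  rw [h3]
  refine (abs_add_le _ _).trans ?_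
  have h4 := abs_add_le (D p q (Real.exp (-(t + x + y))) - D p q (Real.exp (-(t + x))) -
    c0 p q * y * (t + x)) (D p q (Real.exp (-(t + x))) - D p q (Real.exp (-t)) - c0 p q * x * t)
  have := abs_nonneg x
  linarith

theorem Pr_neg {p q : ℕ} {x : ℝ} (hx : Pr p q x) : Pr p q (-x) := by
  obtain ⟨C, hC0, hC⟩ := hx
  refine ⟨C + |x| + |c0 p q * x * x|, by positivity, fun t ht => ?_⟩
  have h2 := hC (t - x) (by
    have := le_abs_self x; have := abs_nonneg (c0 p q * x * x); linarith)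
  have e1 : t - x + x = t := by ring
  have e2 : t + -x = t - x := by ring
  rw [e1] at h2
  rw [e2]
  have h3 : D p q (Real.exp (-(t - x))) - D p q (Real.exp (-t)) - c0 p q * -x * t =
      -(D p q (Real.exp (-t)) - D p q (Real.exp (-(t - x))) - c0 p q * x * (t - x)) +
      c0 p q * x * x := by ring
  rw [h3]
  refine (abs_add_le _ _).trans ?_
  rw [abs_neg]
  have := abs_nonneg x
  linarith

theorem Pr_log1 {p q : ℕ} (hp : 1 < p) (hq : 1 < q) : Pr p q (Real.log p) := by
  obtain ⟨C, hC⟩ := E1_bounds hq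
  have hp' : (1 : ℝ) < p := by exact_mod_cast hp
  have hq' : (1 : ℝ) < q := by exact_mod_cast hq
  have hlp : 0 < Real.log p := Real.log_pos hp'
  have hlq : 0 < Real.log q := Real.log_pos hq'
  refine ⟨|C| + |Real.log 2 / Real.log q * Real.log p|, by positivity, fun t ht => ?_⟩
  have ht0 : 0 ≤ t := le_trans (by positivity) ht
  have h1 := D_rec1 hp hq (Real.exp_pos (-(t + Real.log p)))
  have h2 : (p : ℝ) * Real.exp (-(t + Real.log p)) = Real.exp (-t) := by
    rw [neg_add, Real.exp_add, Real.exp_neg (Real.log p), Real.exp_log (by linarith)]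
    field_simp
  rw [h2] at h1
  rw [h1]
  have h3 := hC (Real.exp (-(t + Real.log p))) (Real.exp_pos _) (by
    rw [Real.exp_le_one_iff]; linarith)
  have h4 : Real.log (1 / Real.exp (-(t + Real.log p))) = t + Real.log p := by
    rw [one_div, ← Real.exp_neg, Real.log_exp]; ring
  rw [h4] at h3
  have h5 : E1 q (Real.exp (-(t + Real.log p))) + D p q (Real.exp (-t)) - D p q (Real.exp (-t)) -
      c0 p q * Real.log p * t = (E1 q (Real.exp (-(t + Real.log p))) -
      Real.log 2 / Real.log q * (t + Real.log p)) + Real.log 2 / Real.log q * Real.log p := by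
    unfold c0
    field_simp
    ring
  rw [h5]
  refine (abs_add_le _ _).trans ?_
  have := le_abs_self C
  linarith

theorem Pr_log2 {p q : ℕ} (hp : 1 < p) (hq : 1 < q) : Pr p q (Real.log q) := by
  obtain ⟨C, hC⟩ := E1_bounds hp
  have hp' : (1 : ℝ) < p := by exact_mod_cast hp
  have hq' : (1 : ℝ) < q := by exact_mod_cast hq
  have hlp : 0 < Real.log p := Real.log_pos hp'
  have hlq : 0 < Real.log q := Real.log_pos hq'
  refine ⟨|C| + |Real.log 2 / Real.log p * Real.log q|, by positivity, fun t ht => ?_⟩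
  have ht0 : 0 ≤ t := le_trans (by positivity) ht
  have h1 := D_rec2 hp hq (Real.exp_pos (-(t + Real.log q)))
  have h2 : (q : ℝ) * Real.exp (-(t + Real.log q)) = Real.exp (-t) := by
    rw [neg_add, Real.exp_add, Real.exp_neg (Real.log q), Real.exp_log (by linarith)]
    field_simp
  rw [h2] at h1
  rw [h1]
  have h3 := hC (Real.exp (-(t + Real.log q))) (Real.exp_pos _) (by
    rw [Real.exp_le_one_iff]; linarith)
  have h4 : Real.log (1 / Real.exp (-(t + Real.log q))) = t + Real.log q := by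
    rw [one_div, ← Real.exp_neg, Real.log_exp]; ring
  rw [h4] at h3
  have h5 : E1 p (Real.exp (-(t + Real.log q))) + D p q (Real.exp (-t)) - D p q (Real.exp (-t)) -
      c0 p q * Real.log q * t = (E1 p (Real.exp (-(t + Real.log q))) -
      Real.log 2 / Real.log p * (t + Real.log q)) + Real.log 2 / Real.log p * Real.log q := by
    unfold c0
    field_simp
    ring
  rw [h5]
  refine (abs_add_le _ _).trans ?_
  have := le_abs_self C
  linarith

/-- the set of the good differences is dense -/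
theorem Pr_dense {p q : ℕ} (hp : 1 < p) (hq : 1 < q) (h : Nat.Coprime p q) {a b : ℝ} (hab : a < b) :
    ∃ x, a < x ∧ x < b ∧ Pr p q x := by
  set G : AddSubgroup ℝ :=
    { carrier := {x | Pr p q x}
      zero_mem' := Pr_zero p q
      add_mem' := fun hx hy => Pr_add hx hy
      neg_mem' := fun hx => Pr_neg hx } with hG
  have hp' : (1 : ℝ) < p := by exact_mod_cast hp
  have hq' : (1 : ℝ) < q := by exact_mod_cast hq
  have hlp : 0 < Real.log p := Real.log_pos hp'
  have hlq : 0 < Real.log q := Real.log_pos hq'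
  have hd : Dense (G : Set ℝ) := by
    rcases G.dense_or_cyclic with hd | ⟨c, hc⟩
    · exact hd
    · exfalso
      have h1 : Real.log p ∈ G := Pr_log1 hp hq
      have h2 : Real.log q ∈ G := Pr_log2 hp hq
      rw [hc, AddSubgroup.mem_closure_singleton] at h1 h2
      obtain ⟨m, hm⟩ := h1
      obtain ⟨n, hn⟩ := h2
      have h3 : (n : ℝ) * Real.log p = m * Real.log q := by
        rw [← hm, ← hn]
        simp only [zsmul_eq_mul]
        ring
      have hm0 : m ≠ 0 := by
        rintro rfl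
        rw [zero_smul] at hm
        exact hlp.ne hm
      have hcomb : (n.natAbs : ℝ) * Real.log p = (m.natAbs : ℝ) * Real.log q := by
        have h4 := congrArg abs h3
        rw [abs_mul, abs_mul, abs_of_pos hlp, abs_of_pos hlq] at h4
        rw [Nat.cast_natAbs, Nat.cast_natAbs]
        push_cast
        exact h4
      rw [← Real.log_pow, ← Real.log_pow] at hcomb
      have h5 : (p : ℝ) ^ n.natAbs = (q : ℝ) ^ m.natAbs :=
        Real.log_injOn_pos (Set.mem_Ioi.2 (by positivity)) (Set.mem_Ioi.2 (by positivity)) hcomb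
      have h6 : p ^ n.natAbs = q ^ m.natAbs := by exact_mod_cast h5
      have h7 : q ∣ p ^ n.natAbs := by
        rw [h6]
        exact dvd_pow_self q (by omega)
      have h8 : q = 1 := Nat.Coprime.eq_one_of_dvd ((Nat.Coprime.pow_left _ h).symm) h7
      omega
  obtain ⟨x, hx, hx2⟩ := hd.exists_between hab
  exact ⟨x, hx2.1, hx2.2, hx⟩

/-- the growth of `D` under dilations -/
theorem D_growth {p q : ℕ} (hp : 1 < p) (hq : 1 < q) (h : Nat.Coprime p q) (x ε : ℝ) (hε : 0 < ε) :
    ∃ C : ℝ, 0 ≤ C ∧ ∀ t : ℝ, C ≤ t →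
      D p q (Real.exp (-(t + x))) - D p q (Real.exp (-t)) ≤ (c0 p q * x + ε) * t + C ∧
      (c0 p q * x - ε) * t - C ≤ D p q (Real.exp (-(t + x))) - D p q (Real.exp (-t)) := by
  have hp' : (1 : ℝ) < p := by exact_mod_cast hp
  have hq' : (1 : ℝ) < q := by exact_mod_cast hq
  have hlp : 0 < Real.log p := Real.log_pos hp'
  have hlq : 0 < Real.log q := Real.log_pos hq'
  have hc : 0 < c0 p q := by
    unfold c0
    have : 0 < Real.log 2 := Real.log_pos (by norm_num)
    positivity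
  obtain ⟨y, hy1, hy2, C, hC0, hC⟩ := Pr_dense hp hq h (show x < x + ε / c0 p q by
    have : 0 < ε / c0 p q := by positivity
    linarith)
  obtain ⟨z, hz1, hz2, C', hC0', hC'⟩ := Pr_dense hp hq h (show x - ε / c0 p q < x by
    have : 0 < ε / c0 p q := by positivity
    linarith)
  refine ⟨C + C', by positivity, fun t ht => ⟨?_, ?_⟩⟩
  · have h1 := hC t (by linarith)
    rw [abs_le] at h1
    have h2 : D p q (Real.exp (-(t + x))) ≤ D p q (Real.exp (-(t + y))) :=
      D_anti hp hq (Real.exp_pos _) (Real.exp_le_exp.2 (by linarith))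
    have h3 : c0 p q * y ≤ c0 p q * x + ε := by
      have : c0 p q * y ≤ c0 p q * (x + ε / c0 p q) := mul_le_mul_of_nonneg_left hy2.le hc.le
      rw [mul_add, mul_div_cancel₀ _ hc.ne'] at this
      exact this
    have h4 : c0 p q * y * t ≤ (c0 p q * x + ε) * t := mul_le_mul_of_nonneg_right h3 (by linarith)
    linarith [h1.2]
  · have h1 := hC' t (by linarith)
    rw [abs_le] at h1
    have h2 : D p q (Real.exp (-(t + z))) ≤ D p q (Real.exp (-(t + x))) :=
      D_anti hp hq (Real.exp_pos _) (Real.exp_le_exp.2 (by linarith))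
    have h3 : c0 p q * x - ε ≤ c0 p q * z := by
      have : c0 p q * (x - ε / c0 p q) ≤ c0 p q * z := mul_le_mul_of_nonneg_left hz1.le hc.le
      rw [mul_sub, mul_div_cancel₀ _ hc.ne'] at this
      exact this
    have h4 : (c0 p q * x - ε) * t ≤ c0 p q * z * t := mul_le_mul_of_nonneg_right h3 (by linarith)
    linarith [h1.1]

end Pool.Agent.Q253.Bir
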