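import Pool.Agent.Q253.Bir.Resid
import Pool.Agent.Q253.Bir.DLog

/-! The upper bound `f n ≤ C exp (lam n) exp (D lam) lam^(1 - ε)`. -/

set_option autoImplicit false

open Finset

namespace Pool.Agent.Q253.Bir

/-- the product of the `1 + e^(-lam s)` -/
noncomputable def Z (p q : ℕ) (lam : ℝ) (I : Finset (ℕ × ℕ)) : ℝ :=
  ∏ i ∈ I, (1 + Real.exp (-(lam * v p q i)))

theorem Z_pos (p q : ℕ) (lam : ℝ) (I : Finset (ℕ × ℕ)) : 0 < Z p q lam I := by
  unfold Z
  refine prod_pos (fun i _ => ?_)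
  have := Real.exp_pos (-(lam * v p q i))
  linarith

theorem Z_union (p q : ℕ) (lam : ℝ) {I J : Finset (ℕ × ℕ)} (h : Disjoint I J) :
    Z p q lam (I ∪ J) = Z p q lam I * Z p q lam J := by
  unfold Z
  exact prod_union h

theorem Z_eq_exp (p q : ℕ) (lam : ℝ) (I : Finset (ℕ × ℕ)) :
    Z p q lam I = Real.exp (∑ i ∈ I, g (lam * v p q i)) := by
  unfold Z
  rw [Real.exp_sum]
  refine prod_congr rfl (fun i _ => ?_)
  unfold g
  rw [Real.exp_log]
  have := Real.exp_pos (-(lam * v p q i))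
  linarith

theorem Z_le_D {p q : ℕ} (hp : 1 < p) (hq : 1 < q) {lam : ℝ} (hl : 0 < lam)
    (I : Finset (ℕ × ℕ)) : Z p q lam I ≤ Real.exp (D p q lam) := by
  rw [Z_eq_exp]
  refine Real.exp_le_exp.2 ?_
  exact (summable_g_v hp hq hl).sum_le_tsum I (fun i _ => g_nonneg _)

theorem Z_le_two (p q : ℕ) {lam : ℝ} (hl : 0 ≤ lam) (I : Finset (ℕ × ℕ)) :
    Z p q lam I ≤ 2 ^ I.card := by
  unfold Z
  rw [← prod_const]
  refine prod_le_prod (fun i _ => by positivity) (fun i _ => ?_)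
  have : Real.exp (-(lam * v p q i)) ≤ 1 := Real.exp_le_one_iff.2 (by
    have : 0 ≤ lam * v p q i := by positivity
    linarith)
  linarith

theorem Z_ge (p q : ℕ) (lam : ℝ) (I : Finset (ℕ × ℕ)) :
    2 ^ I.card * Real.exp (-(lam * (∑ i ∈ I, v p q i : ℕ) / 2)) ≤ Z p q lam I := by
  unfold Z
  have h1 : (2 : ℝ) ^ I.card * Real.exp (-(lam * (∑ i ∈ I, v p q i : ℕ) / 2)) =
      ∏ i ∈ I, 2 * Real.exp (-(lam * v p q i / 2)) := by
    rw [prod_mul_distrib, prod_const, ← Real.exp_sum, sum_neg_distrib]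
    congr 3
    push_cast
    rw [mul_sum, sum_div]
  rw [h1]
  refine prod_le_prod (fun i _ => by positivity) (fun i _ => ?_)
  set x := lam * v p q i
  have h2 : Real.exp (-x) = Real.exp (-(x / 2)) ^ 2 := by
    rw [← Real.exp_nat_mul]; congr 1; push_cast; ring
  rw [h2]
  nlinarith [sq_nonneg (1 - Real.exp (-(x / 2)))]

theorem Z_expand (p q : ℕ) (lam : ℝ) (I : Finset (ℕ × ℕ)) :
    Z p q lam I = ∑ A ∈ I.powerset, Real.exp (-(lam * (∑ i ∈ A, v p q i : ℕ))) := by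
  classical
  unfold Z
  rw [prod_one_add]
  refine sum_congr rfl (fun A _ => ?_)
  rw [← Real.exp_sum, sum_neg_distrib]
  push_cast
  rw [mul_sum]

theorem cnt_eq (p q : ℕ) (I : Finset (ℕ × ℕ)) (n : ℕ) :
    (cnt p q I n : ℝ) = ∑ A ∈ I.powerset, if ∑ i ∈ A, v p q i = n then (1 : ℝ) else 0 := by
  unfold cnt
  rw [sum_boole]

/-- the digit block as a set of pairs of exponents -/
def iota (φ : ℕ) (hφ : 0 < φ) : ℕ × ℕ ↪ ℕ × ℕ :=
  ⟨fun i => (i.1, φ * i.2), fun a b hab => by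
    simp only [Prod.mk.injEq] at hab
    exact Prod.ext hab.1 (Nat.eq_of_mul_eq_mul_left hφ hab.2)⟩

theorem v_iota (p q : ℕ) (φ : ℕ) (hφ : 0 < φ) (i : ℕ × ℕ) :
    v p q (iota φ hφ i) = v p (q ^ φ) i := by
  show p ^ i.1 * q ^ (φ * i.2) = p ^ i.1 * (q ^ φ) ^ i.2
  rw [pow_mul]

theorem sum_iota (p q : ℕ) (φ : ℕ) (hφ : 0 < φ) (A : Finset (ℕ × ℕ)) :
    ∑ i ∈ A.map (iota φ hφ), v p q i = ∑ i ∈ A, v p (q ^ φ) i := by
  rw [sum_map]
  exact sum_congr rfl (fun i _ => v_iota p q φ hφ i)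

theorem geom_le {r : ℕ} (hr : 1 < r) (k : ℕ) : ∑ i ∈ range k, r ^ i ≤ r ^ k := by
  induction k with
  | zero => simp
  | succ k ih =>
    rw [sum_range_succ, pow_succ]
    have : r ^ k * 2 ≤ r ^ k * r := Nat.mul_le_mul_left _ hr
    omega

theorem sum_block {p Q : ℕ} (hp : 1 < p) (hQ : 1 < Q) (k B : ℕ) :
    ∑ i ∈ range k ×ˢ range B, v p Q i ≤ p ^ k * Q ^ B := by
  rw [sum_product]
  simp only [v]
  have h1 : ∀ a ∈ range k, ∑ b ∈ range B, p ^ a * Q ^ b = p ^ a * ∑ b ∈ range B, Q ^ b :=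
    fun a _ => (mul_sum _ _ _).symm
  rw [sum_congr rfl h1, ← sum_mul]
  exact Nat.mul_le_mul (geom_le hp k) (geom_le hQ B)

theorem cnt_upper {p q : ℕ} (hp : 1 < p) (hq : 1 < q) {φ B : ℕ} (hφ : 0 < φ) {U : ℝ}
    (k : ℕ) (hU : ∀ M : ℤ, N p (q ^ φ) B k M ≤ U) {lam : ℝ} (hl : 0 ≤ lam) (I : Finset (ℕ × ℕ))
    (hI : (range k ×ˢ range B).map (iota φ hφ) ⊆ I) (n : ℕ) :
    (cnt p q I n : ℝ) * 2 ^ (k * B) ≤ Real.exp (lam * n) * Z p q lam I *
      Real.exp (lam * (p ^ k * (q ^ φ) ^ B : ℕ) / 2) * U := by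
  classical
  set L := (range k ×ˢ range B).map (iota φ hφ) with hL
  have hIL : (I \ L) ∪ L = I := sdiff_union_of_subset hI
  have hd : Disjoint (I \ L) L := sdiff_disjoint
  have hq' : 1 < q ^ φ := Nat.one_lt_pow (by omega) hq
  have h1 : (cnt p q I n : ℝ) * Real.exp (-(lam * n)) ≤ Z p q lam (I \ L) * U := by
    rw [cnt_eq, ← hIL, sum_pow_union _ _ hd, sum_mul, Z_expand, sum_mul, hIL]
    refine sum_le_sum (fun A hA => ?_)
    rw [mem_powerset] at hA
    by_cases hAn : ∑ i ∈ A, v p q i ≤ n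
    · have h2 : (∑ A' ∈ L.powerset, if ∑ i ∈ A ∪ A', v p q i = n then (1 : ℝ) else 0) ≤
          N p (q ^ φ) B k ((n : ℤ) - ((∑ i ∈ A, v p q i : ℕ) : ℤ)) := by
        unfold N
        rw [← sum_filter, ← sum_filter]
        rw [sum_const, sum_const, nsmul_eq_mul, nsmul_eq_mul, mul_one, mul_one]
        have h3 : (L.powerset.filter (fun A' => ∑ i ∈ A ∪ A', v p q i = n)) ⊆
            (((range k ×ˢ range B).powerset.filter (fun X => (p : ℤ) ^ k ∣
              (n : ℤ) - ((∑ i ∈ A, v p q i : ℕ) : ℤ) - ((∑ i ∈ X, v p (q ^ φ) i : ℕ) : ℤ)))).image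
              (fun X => X.map (iota φ hφ)) := by
          intro A' hA'
          rw [mem_filter, mem_powerset] at hA'
          obtain ⟨X, hX, rfl⟩ := subset_map_iff.1 hA'.1
          rw [mem_image]
          refine ⟨X, ?_, rfl⟩
          rw [mem_filter, mem_powerset]
          refine ⟨hX, ?_⟩
          have h4 := hA'.2
          rw [sum_union ((hd.mono_left hA).mono_right hA'.1), sum_iota] at h4
          rw [← h4]
          push_cast
          simp
        exact_mod_cast (card_le_card h3).trans card_image_le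
      have h5 := hU ((n : ℤ) - ((∑ i ∈ A, v p q i : ℕ) : ℤ))
      have h6 : Real.exp (-(lam * n)) ≤ Real.exp (-(lam * (∑ i ∈ A, v p q i : ℕ))) := by
        refine Real.exp_le_exp.2 ?_
        have : lam * ((∑ i ∈ A, v p q i : ℕ) : ℝ) ≤ lam * n :=
          mul_le_mul_of_nonneg_left (by exact_mod_cast hAn) hl
        linarith
      have h7 : 0 ≤ U := (N_nonneg p (q ^ φ) B k 0).trans (hU 0)
      calc _ ≤ U * Real.exp (-(lam * n)) :=
            mul_le_mul_of_nonneg_right (h2.trans h5) (Real.exp_pos _).le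
        _ ≤ U * Real.exp (-(lam * (∑ i ∈ A, v p q i : ℕ))) := mul_le_mul_of_nonneg_left h6 h7
        _ = _ := mul_comm _ _
    · have h8 : (∑ A' ∈ L.powerset, if ∑ i ∈ A ∪ A', v p q i = n then (1 : ℝ) else 0) = 0 := by
        refine sum_eq_zero (fun A' _ => ?_)
        rw [if_neg]
        intro h9
        have : ∑ i ∈ A, v p q i ≤ ∑ i ∈ A ∪ A', v p q i := sum_le_sum_of_subset subset_union_left
        omega
      rw [h8, zero_mul]
      have h7 : 0 ≤ U := (N_nonneg p (q ^ φ) B k 0).trans (hU 0)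
      positivity
  have h10 : (2 : ℝ) ^ (k * B) * Real.exp (-(lam * (p ^ k * (q ^ φ) ^ B : ℕ) / 2)) ≤ Z p q lam L := by
    have h11 := Z_ge p q lam L
    have h12 : L.card = k * B := by
      rw [hL, card_map, card_product, card_range, card_range]
    rw [h12, hL, sum_iota] at h11
    refine le_trans ?_ h11
    refine mul_le_mul_of_nonneg_left (Real.exp_le_exp.2 ?_) (by positivity)
    have h13 := sum_block hp hq' k B
    have h14 : lam * ((∑ i ∈ range k ×ˢ range B, v p (q ^ φ) i : ℕ) : ℝ) ≤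
        lam * ((p ^ k * (q ^ φ) ^ B : ℕ) : ℝ) := mul_le_mul_of_nonneg_left (by exact_mod_cast h13) hl
    linarith
  have h15 : Z p q lam I = Z p q lam (I \ L) * Z p q lam L := by
    rw [← Z_union p q lam hd, hIL]
  have h7 : 0 ≤ U := (N_nonneg p (q ^ φ) B k 0).trans (hU 0)
  have e1 : Real.exp (lam * n) * Real.exp (-(lam * n)) = 1 := by
    rw [← Real.exp_add]; simp
  have e2 : Real.exp (lam * (p ^ k * (q ^ φ) ^ B : ℕ) / 2) *
      Real.exp (-(lam * (p ^ k * (q ^ φ) ^ B : ℕ) / 2)) = 1 := by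
    rw [← Real.exp_add]; simp
  calc (cnt p q I n : ℝ) * 2 ^ (k * B) = (cnt p q I n * Real.exp (-(lam * n))) *
        (2 ^ (k * B) * Real.exp (-(lam * (p ^ k * (q ^ φ) ^ B : ℕ) / 2))) *
        (Real.exp (lam * n) * Real.exp (lam * (p ^ k * (q ^ φ) ^ B : ℕ) / 2)) := by
        calc (cnt p q I n : ℝ) * 2 ^ (k * B) = (cnt p q I n : ℝ) * 2 ^ (k * B) *
              (Real.exp (lam * n) * Real.exp (-(lam * n))) *
              (Real.exp (lam * (p ^ k * (q ^ φ) ^ B : ℕ) / 2) *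
                Real.exp (-(lam * (p ^ k * (q ^ φ) ^ B : ℕ) / 2))) := by rw [e1, e2]; ring
          _ = _ := by ring
    _ ≤ (Z p q lam (I \ L) * U) * Z p q lam L *
        (Real.exp (lam * n) * Real.exp (lam * (p ^ k * (q ^ φ) ^ B : ℕ) / 2)) := by
        refine mul_le_mul_of_nonneg_right ?_ (by positivity)
        refine mul_le_mul h1 h10 (by positivity) ?_
        have := (Z_pos p q lam (I \ L)).le
        positivity
    _ = _ := by rw [h15]; ring

/-- the power of `p` just below `y` -/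
theorem exists_k {p : ℕ} (hp : 1 < p) {y : ℝ} (hy : 1 ≤ y) :
    ∃ k : ℕ, (p : ℝ) ^ k ≤ y ∧ y < (p : ℝ) ^ (k + 1) := by
  have hp' : (1 : ℝ) < p := by exact_mod_cast hp
  obtain ⟨k, hk⟩ := exists_nat_pow_near hy hp'
  exact ⟨k, hk⟩

theorem upper {p q : ℕ} (hp : 1 < p) (hq : 1 < q) (h : Nat.Coprime p q) (ε : ℝ) (hε : 0 < ε)
    (hε1 : ε ≤ 1) : ∃ C : ℝ, 0 < C ∧ ∀ lam : ℝ, 0 < lam → lam ≤ 1 → ∀ n : ℕ,
    (f p q n : ℝ) ≤ C * Real.exp (lam * n) * Real.exp (D p q lam) * lam ^ (1 - ε) := by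
  classical
  have : NeZero p := ⟨by omega⟩
  have hp' : (1 : ℝ) < p := by exact_mod_cast hp
  have hp0 : (0 : ℝ) < p := by linarith
  set φ := Nat.totient p with hφ'
  have hφ : 0 < φ := Nat.totient_pos.2 (by omega)
  have hQ : ((q ^ φ : ℕ) : ZMod p) = 1 := by
    have := Nat.ModEq.pow_totient h.symm
    rw [← ZMod.natCast_eq_natCast_iff] at this
    rw [this]
    simp
  have h2ε : (1 : ℝ) < 2 ^ ε := Real.one_lt_rpow (by norm_num) hε
  set η := min 1 ((2 : ℝ) ^ ε - 1) with hη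
  have hη0 : 0 < η := lt_min one_pos (by linarith)
  obtain ⟨B, hB⟩ := u_equi p η hη0
  set QB : ℝ := (((q ^ φ) ^ B : ℕ) : ℝ) with hQB
  have hQB1 : 1 ≤ QB := by
    rw [hQB]
    exact_mod_cast Nat.one_le_pow _ _ (Nat.pos_of_ne_zero (by positivity))
  have hηp : 1 + η ≤ (p : ℝ) ^ ε := by
    have h1 : η ≤ (2 : ℝ) ^ ε - 1 := min_le_right _ _
    have h2 : (2 : ℝ) ^ ε ≤ (p : ℝ) ^ ε := Real.rpow_le_rpow (by norm_num) (by exact_mod_cast hp) hε.le
    linarith
  refine ⟨p * QB * Real.exp (QB / 2), by positivity, fun lam hl hl1 n => ?_⟩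
  -- the number of digits
  obtain ⟨k, hk1, hk2⟩ : ∃ k : ℕ, lam * (p ^ k * QB) ≤ QB ∧ 1 / lam < p ^ (k + 1) * QB := by
    by_cases hy : 1 ≤ 1 / (lam * QB)
    · obtain ⟨k, h1, h2⟩ := exists_k hp hy
      refine ⟨k, ?_, ?_⟩
      · rw [le_div_iff₀ (by positivity)] at h1
        calc lam * (p ^ k * QB) = (p : ℝ) ^ k * (lam * QB) := by ring
          _ ≤ 1 := h1
          _ ≤ QB := hQB1
      · rw [div_lt_iff₀ (by positivity)] at h2
        rw [div_lt_iff₀ hl]
        linarith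
    · refine ⟨0, ?_, ?_⟩
      · rw [pow_zero, one_mul]
        nlinarith
      · push Not at hy
        rw [div_lt_iff₀ (by positivity)] at hy
        rw [div_lt_iff₀ hl, zero_add, pow_one]
        nlinarith [mul_pos hl (by linarith : (0 : ℝ) < QB)]
  have hU := fun M => (N_bounds hQ (min_le_left 1 _) hB k M).2
  set I := (range (n + 1) ×ˢ range (n + 1)) ∪ (range k ×ˢ range B).map (iota φ hφ) with hI
  have h1 : (f p q n : ℝ) ≤ cnt p q I n := by
    exact_mod_cast f_le_cnt hp hq h subset_union_left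
  have h2 := cnt_upper hp hq hφ k hU hl.le I subset_union_right n
  have h2k : (0 : ℝ) < 2 ^ (k * B) := by positivity
  have h3 : ((1 + η) * (2 ^ B / p)) ^ k = 2 ^ (k * B) * ((1 + η) / p) ^ k := by
    rw [mul_div_assoc', mul_comm (1 + η), mul_div_assoc, mul_pow, ← pow_mul, mul_comm B k]
  have h4 : ((1 + η) / p) ^ k ≤ p * QB * lam ^ (1 - ε) := by
    have h5 : (1 + η) / p ≤ (p : ℝ) ^ (ε - 1) := by
      rw [Real.rpow_sub_one hp0.ne']
      exact div_le_div_of_nonneg_right hηp hp0.le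
    calc ((1 + η) / p) ^ k ≤ ((p : ℝ) ^ (ε - 1)) ^ k := pow_le_pow_left₀ (by positivity) h5 k
      _ = ((p : ℝ) ^ k) ^ (ε - 1) := by
          rw [← Real.rpow_natCast, ← Real.rpow_natCast, ← Real.rpow_mul hp0.le,
            ← Real.rpow_mul hp0.le, mul_comm]
      _ = (1 / (p : ℝ) ^ k) ^ (1 - ε) := by
          rw [one_div, Real.inv_rpow (by positivity), ← Real.rpow_neg (by positivity)]
          congr 1; ring
      _ ≤ (p * QB * lam) ^ (1 - ε) := by
          refine Real.rpow_le_rpow (by positivity) ?_ (by linarith)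
          rw [div_lt_iff₀ hl] at hk2
          rw [div_le_iff₀ (by positivity)]
          calc 1 ≤ p ^ (k + 1) * QB * lam := hk2.le
            _ = p * QB * lam * p ^ k := by ring
      _ = (p * QB) ^ (1 - ε) * lam ^ (1 - ε) := Real.mul_rpow (by positivity) hl.le
      _ ≤ (p * QB) * lam ^ (1 - ε) := by
          refine mul_le_mul_of_nonneg_right ?_ (by positivity)
          have h6 : (p * QB) ^ (1 - ε) ≤ (p * QB : ℝ) ^ (1 : ℝ) :=
            Real.rpow_le_rpow_of_exponent_le (by nlinarith) (by linarith)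
          rwa [Real.rpow_one] at h6
  have h7 : Real.exp (lam * (p ^ k * (q ^ φ) ^ B : ℕ) / 2) ≤ Real.exp (QB / 2) := by
    refine Real.exp_le_exp.2 ?_
    have : lam * (p ^ k * (q ^ φ) ^ B : ℕ) = lam * (p ^ k * QB) := by rw [hQB]; push_cast; ring
    rw [this]
    linarith
  have h8 := Z_le_D hp hq hl I
  have h9 : (cnt p q I n : ℝ) ≤ Real.exp (lam * n) * Z p q lam I *
      Real.exp (lam * (p ^ k * (q ^ φ) ^ B : ℕ) / 2) * ((1 + η) / p) ^ k := by
    rw [h3] at h2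
    refine le_of_mul_le_mul_right ?_ h2k
    linarith
  refine h1.trans (h9.trans ?_)
  have hZ := (Z_pos p q lam I).le
  calc Real.exp (lam * n) * Z p q lam I * Real.exp (lam * (p ^ k * (q ^ φ) ^ B : ℕ) / 2) *
        ((1 + η) / p) ^ k
      ≤ Real.exp (lam * n) * Real.exp (D p q lam) * Real.exp (QB / 2) *
        (p * QB * lam ^ (1 - ε)) := by
        refine mul_le_mul ?_ h4 (by positivity) (by positivity)
        refine mul_le_mul ?_ h7 (by positivity) (by positivity)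
        exact mul_le_mul_of_nonneg_left h8 (by positivity)
    _ = _ := by ring

end Pool.Agent.Q253.Bir
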