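import Pool.Agent.Q253.Bir.Birch
import Pool.Agent.Q253.Bir.Upper

/-! The digit block, a block for Birch's theorem and correcting elements give all sums of a window. -/

set_option autoImplicit false

open Finset

namespace Pool.Agent.Q253.Bir

/-- multiplication by `p^J` -/
def shf (J : ℕ) : ℕ × ℕ ↪ ℕ × ℕ :=
  ⟨fun i => (i.1 + J, i.2), fun a b hab => by
    simp only [Prod.mk.injEq, Nat.add_right_cancel_iff] at hab
    exact Prod.ext hab.1 hab.2⟩

theorem sum_shf (p q J : ℕ) (A : Finset (ℕ × ℕ)) :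
    ∑ i ∈ A.map (shf J), v p q i = p ^ J * ∑ i ∈ A, v p q i := by
  rw [sum_map, mul_sum]
  refine sum_congr rfl (fun i _ => ?_)
  show p ^ (i.1 + J) * q ^ i.2 = p ^ J * (p ^ i.1 * q ^ i.2)
  ring

/-- the digit block -/
def LL (φ : ℕ) (hφ : 0 < φ) (J B : ℕ) : Finset (ℕ × ℕ) := (range J ×ˢ range B).map (iota φ hφ)

/-- the pairs with `p^a q^b ≤ A` -/
def sm (p q A : ℕ) : Finset (ℕ × ℕ) := (range (A + 1) ×ˢ range (A + 1)).filter (fun i => v p q i ≤ A)

theorem mem_sm {p q : ℕ} (hp : 1 < p) (hq : 1 < q) {A : ℕ} {i : ℕ × ℕ} :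
    i ∈ sm p q A ↔ v p q i ≤ A := by
  unfold sm
  rw [mem_filter, mem_product, mem_range, mem_range]
  constructor
  · exact fun h => h.2
  · intro h
    refine ⟨?_, h⟩
    have h5 := two_pow_le_v hp hq i
    have h7 : i.1 + i.2 < 2 ^ (i.1 + i.2) := Nat.lt_two_pow_self
    constructor <;> omega

/-- the correcting element with exponent `b` -/
def tt (p q J b : ℕ) : ℕ × ℕ := (J - Nat.log p (q ^ b), b)

/-- the correcting elements -/
def CC (p q J β m : ℕ) : Finset (ℕ × ℕ) := (Ico β (β + m)).image (tt p q J)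

theorem tt_inj (p q J : ℕ) : Function.Injective (tt p q J) := by
  intro a b hab
  exact congrArg Prod.snd hab

theorem tt_bounds {p q : ℕ} (hp : 1 < p) (hq : 1 < q) {J b : ℕ} (h : q ^ b ≤ p ^ J) :
    p ^ J ≤ v p q (tt p q J b) ∧ v p q (tt p q J b) ≤ p ^ J * p := by
  have hqb : q ^ b ≠ 0 := by positivity
  have h1 : p ^ (Nat.log p (q ^ b)) ≤ q ^ b := Nat.pow_log_le_self p hqb
  have h2 : q ^ b < p ^ (Nat.log p (q ^ b) + 1) := Nat.lt_pow_succ_log_self hp _
  have h3 : Nat.log p (q ^ b) ≤ J := by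
    by_contra hh
    push Not at hh
    have : p ^ J < p ^ (Nat.log p (q ^ b)) := Nat.pow_lt_pow_right hp hh
    omega
  have h4 : p ^ J = p ^ (J - Nat.log p (q ^ b)) * p ^ (Nat.log p (q ^ b)) := by
    rw [← pow_add]; congr 1; omega
  unfold v tt
  simp only
  constructor
  · rw [h4]
    exact Nat.mul_le_mul_left _ h1
  · rw [h4, mul_assoc, ← pow_succ]
    exact Nat.mul_le_mul_left _ h2.le

theorem lowA {p q : ℕ} (hp : 1 < p) (hq : 1 < q) {φ B : ℕ} (hφ : 0 < φ) {n₀ : ℕ}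
    (hb : ∀ n, n₀ ≤ n → ∃ A : Finset (ℕ × ℕ), ∑ i ∈ A, v p q i = n) {J m β A₂ : ℕ}
    (hβ : φ * B ≤ β) (hβ' : A₂ < q ^ β) (hJ : q ^ (β + m) ≤ p ^ J)
    (hA₂ : n₀ + (q ^ φ) ^ B + p ≤ A₂) (w : ℕ) (hw1 : (n₀ + (q ^ φ) ^ B) * p ^ J ≤ w)
    (hw2 : w ≤ A₂ * p ^ J + ∑ i ∈ CC p q J β m, v p q i) :
    ∃ M : ℤ, N p (q ^ φ) B J M ≤
      ∑ A ∈ (LL φ hφ J B ∪ (sm p q A₂).map (shf J) ∪ CC p q J β m).powerset,
        if ∑ i ∈ A, v p q i = w then (1 : ℝ) else 0 := by
  classical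
  have hpJ : 0 < p ^ J := by positivity
  have hq' : 1 < q ^ φ := Nat.one_lt_pow (by omega) hq
  have htb : ∀ b < β + m, p ^ J ≤ v p q (tt p q J b) ∧ v p q (tt p q J b) ≤ p ^ J * p :=
    fun b hb => tt_bounds hp hq (le_trans (Nat.pow_le_pow_right (by omega) hb.le) hJ)
  have hCsum : ∀ j, ∑ i ∈ CC p q J β j, v p q i = ∑ b ∈ Ico β (β + j), v p q (tt p q J b) := by
    intro j
    unfold CC
    rw [sum_image (fun a _ b _ hab => tt_inj p q J hab)]
  -- the number of correcting elements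
  have hex : ∃ j, w ≤ A₂ * p ^ J + ∑ i ∈ CC p q J β j, v p q i := ⟨m, hw2⟩
  obtain ⟨j, hjm, hj1, hj2⟩ : ∃ j ≤ m, w ≤ A₂ * p ^ J + ∑ i ∈ CC p q J β j, v p q i ∧
      (n₀ + (q ^ φ) ^ B) * p ^ J + ∑ i ∈ CC p q J β j, v p q i ≤ w := by
    refine ⟨Nat.find hex, Nat.find_min' hex hw2, Nat.find_spec hex, ?_⟩
    rcases Nat.eq_zero_or_pos (Nat.find hex) with h0 | hpos
    · rw [h0, hCsum]
      simpa using hw1
    · obtain ⟨i, hi⟩ : ∃ i, Nat.find hex = i + 1 := ⟨Nat.find hex - 1, by omega⟩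
      have h1 := Nat.find_min hex (m := i) (by omega)
      have h2 := Nat.find_min' hex hw2
      rw [hi, hCsum, ← add_assoc, sum_Ico_succ_top (by omega)]
      push Not at h1
      rw [hCsum] at h1
      have h3 := (htb (β + i) (by omega)).2
      have h4 : (n₀ + (q ^ φ) ^ B) * p ^ J + p ^ J * p ≤ A₂ * p ^ J := by
        calc (n₀ + (q ^ φ) ^ B) * p ^ J + p ^ J * p = (n₀ + (q ^ φ) ^ B + p) * p ^ J := by ring
          _ ≤ A₂ * p ^ J := Nat.mul_le_mul_right _ hA₂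
      omega
  set M : ℕ := w - ∑ i ∈ CC p q J β j, v p q i with hM
  have hM1 : (n₀ + (q ^ φ) ^ B) * p ^ J ≤ M := by omega
  have hM2 : M ≤ A₂ * p ^ J := by omega
  have hMw : M + ∑ i ∈ CC p q J β j, v p q i = w := by omega
  refine ⟨(M : ℤ), ?_⟩
  -- the complement of a digit set
  have hT : ∀ X ∈ (range J ×ˢ range B).powerset.filter
      (fun X => (p : ℤ) ^ J ∣ (M : ℤ) - ((∑ i ∈ X, v p (q ^ φ) i : ℕ) : ℤ)),
      ∃ T ⊆ sm p q A₂, ∑ i ∈ X, v p (q ^ φ) i + p ^ J * ∑ i ∈ T, v p q i = M := by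
    intro X hX
    rw [mem_filter, mem_powerset] at hX
    have h1 : ∑ i ∈ X, v p (q ^ φ) i ≤ p ^ J * (q ^ φ) ^ B :=
      (sum_le_sum_of_subset hX.1).trans (sum_block hp hq' J B)
    have h2 : ∑ i ∈ X, v p (q ^ φ) i ≤ M := by
      refine h1.trans (le_trans ?_ hM1)
      rw [mul_comm]
      exact Nat.mul_le_mul_right _ (by omega)
    have h3 : p ^ J ∣ M - ∑ i ∈ X, v p (q ^ φ) i := by
      have h4 := hX.2
      rw [← Nat.cast_sub h2] at h4
      exact_mod_cast h4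
    obtain ⟨y, hy⟩ := h3
    have hyn : n₀ ≤ y := by
      have h5 : n₀ * p ^ J ≤ p ^ J * y := by
        rw [← hy]
        have : n₀ * p ^ J + p ^ J * (q ^ φ) ^ B ≤ M := by
          calc n₀ * p ^ J + p ^ J * (q ^ φ) ^ B = (n₀ + (q ^ φ) ^ B) * p ^ J := by ring
            _ ≤ M := hM1
        omega
      rw [mul_comm] at h5
      exact Nat.le_of_mul_le_mul_left h5 hpJ
    have hyA : y ≤ A₂ := by
      have h5 : p ^ J * y ≤ p ^ J * A₂ := by
        rw [← hy, mul_comm (p ^ J) A₂]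
        omega
      exact Nat.le_of_mul_le_mul_left h5 hpJ
    obtain ⟨T, hT⟩ := hb y hyn
    refine ⟨T, ?_, ?_⟩
    · intro i hi
      rw [mem_sm hp hq]
      have := Finset.single_le_sum (f := v p q) (fun i _ => Nat.zero_le _) hi
      omega
    · rw [hT, ← hy]
      omega
  choose! T hT1 hT2 using hT
  -- disjointness
  have hLmem : ∀ i ∈ LL φ hφ J B, i.1 < J ∧ i.2 < φ * B := by
    intro i hi
    unfold LL at hi
    obtain ⟨a, ha, rfl⟩ := mem_map.1 hi
    rw [mem_product, mem_range, mem_range] at ha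
    exact ⟨ha.1, Nat.mul_lt_mul_of_pos_left ha.2 hφ⟩
  have hTmem : ∀ i ∈ (sm p q A₂).map (shf J), J ≤ i.1 ∧ i.2 < β := by
    intro i hi
    obtain ⟨a, ha, rfl⟩ := mem_map.1 hi
    rw [mem_sm hp hq] at ha
    refine ⟨Nat.le_add_left _ _, ?_⟩
    show a.2 < β
    by_contra hh
    push Not at hh
    have h1 : q ^ β ≤ q ^ a.2 := Nat.pow_le_pow_right (by omega) hh
    have h2 : q ^ a.2 ≤ v p q a := by
      unfold v
      exact Nat.le_mul_of_pos_left _ (by positivity)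
    omega
  have hCmem : ∀ j, ∀ i ∈ CC p q J β j, β ≤ i.2 ∧ i.2 < β + j := by
    intro j i hi
    unfold CC at hi
    obtain ⟨b, hb, rfl⟩ := mem_image.1 hi
    rw [mem_Ico] at hb
    exact hb
  have hLT : ∀ {X Y : Finset (ℕ × ℕ)}, X ⊆ LL φ hφ J B → Y ⊆ (sm p q A₂).map (shf J) →
      Disjoint X Y := by
    intro X Y hX hY
    rw [disjoint_left]
    intro i h1 h2
    have := (hLmem i (hX h1)).1
    have := (hTmem i (hY h2)).1
    omega
  have hLC : ∀ {X : Finset (ℕ × ℕ)} (j : ℕ), X ⊆ LL φ hφ J B → Disjoint X (CC p q J β j) := by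
    intro X j hX
    rw [disjoint_left]
    intro i h1 h2
    have := (hLmem i (hX h1)).2
    have := (hCmem j i h2).1
    omega
  have hTC : ∀ {Y : Finset (ℕ × ℕ)} (j : ℕ), Y ⊆ (sm p q A₂).map (shf J) →
      Disjoint Y (CC p q J β j) := by
    intro Y j hY
    rw [disjoint_left]
    intro i h1 h2
    have := (hTmem i (hY h1)).2
    have := (hCmem j i h2).1
    omega
  have hCj : CC p q J β j ⊆ CC p q J β m := by
    unfold CC
    refine image_subset_image (fun b hb => ?_)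
    rw [mem_Ico] at hb ⊢
    omega
  unfold N
  rw [← sum_filter, ← sum_filter, sum_const, sum_const, nsmul_eq_mul, nsmul_eq_mul, mul_one, mul_one]
  refine Nat.cast_le.2 ?_
  refine card_le_card_of_injOn
    (fun X => X.map (iota φ hφ) ∪ (T X).map (shf J) ∪ CC p q J β j) ?_ ?_
  · intro X hX
    have hX' := hX
    rw [mem_coe, mem_filter, mem_powerset] at hX
    have h1 : X.map (iota φ hφ) ⊆ LL φ hφ J B := map_subset_map.2 hX.1
    have h2 : (T X).map (shf J) ⊆ (sm p q A₂).map (shf J) := map_subset_map.2 (hT1 X hX')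
    rw [mem_coe, mem_filter, mem_powerset]
    refine ⟨union_subset_union (union_subset_union h1 h2) hCj, ?_⟩
    rw [sum_union (disjoint_union_left.2 ⟨hLC j h1, hTC j h2⟩), sum_union (hLT h1 h2), sum_iota,
      sum_shf, hT2 X hX']
    exact hMw
  · intro X hX Y hY hXY
    have key : ∀ X ∈ (range J ×ˢ range B).powerset.filter
      (fun X => (p : ℤ) ^ J ∣ (M : ℤ) - ((∑ i ∈ X, v p (q ^ φ) i : ℕ) : ℤ)),
        (X.map (iota φ hφ) ∪ (T X).map (shf J) ∪ CC p q J β j) ∩ LL φ hφ J B =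
          X.map (iota φ hφ) := by
      intro X hX
      have h3 := hT1 X hX
      rw [mem_filter, mem_powerset] at hX
      have h1 : X.map (iota φ hφ) ⊆ LL φ hφ J B := map_subset_map.2 hX.1
      have h2 : (T X).map (shf J) ⊆ (sm p q A₂).map (shf J) := map_subset_map.2 h3
      rw [union_inter_distrib_right, union_inter_distrib_right, inter_eq_left.2 h1,
        (disjoint_iff_inter_eq_empty.1 (hLT (Subset.refl _) h2).symm),
        (disjoint_iff_inter_eq_empty.1 (hLC j (Subset.refl _)).symm), union_empty, union_empty]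
    have h4 := key X hX
    have h5 := key Y hY
    simp only at hXY
    rw [hXY, h5] at h4
    exact (map_injective _ h4).symm

end Pool.Agent.Q253.Bir
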