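import Pool.Agent.Q253.Bir.LowA

/-! Mean and variance of the tilted sums, and the choice of the tilt. -/

set_option autoImplicit false

open Finset

namespace Pool.Agent.Q253.Bir

/-- the second moment formula -/
theorem moment {ι : Type*} [DecidableEq ι] (x s : ι → ℝ) (hx : ∀ i, 0 < x i) (I : Finset ι) (c : ℝ) :
    ∑ A ∈ I.powerset, (∏ i ∈ A, x i) * (∑ i ∈ A, s i - c) ^ 2 =
      (∏ i ∈ I, (1 + x i)) * (∑ i ∈ I, s i ^ 2 * x i / (1 + x i) ^ 2 +
        (∑ i ∈ I, s i * x i / (1 + x i) - c) ^ 2) := by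
  induction I using Finset.induction_on generalizing c with
  | empty => simp
  | insert j I hj ih =>
    rw [sum_powerset_insert hj, ih, prod_insert hj, sum_insert hj, sum_insert hj]
    have h1 : ∑ A ∈ I.powerset, (∏ i ∈ insert j A, x i) * (∑ i ∈ insert j A, s i - c) ^ 2 =
        x j * ∑ A ∈ I.powerset, (∏ i ∈ A, x i) * (∑ i ∈ A, s i - (c - s j)) ^ 2 := by
      rw [mul_sum]
      refine sum_congr rfl (fun A hA => ?_)
      have h2 : j ∉ A := fun hh => hj (mem_powerset.1 hA hh)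
      rw [prod_insert h2, sum_insert h2]
      ring
    rw [h1, ih]
    have h3 : 1 + x j ≠ 0 := by have := hx j; positivity
    field_simp
    ring

/-- the mean -/
noncomputable def mn (p q : ℕ) (lam : ℝ) (I : Finset (ℕ × ℕ)) : ℝ :=
  ∑ i ∈ I, (v p q i : ℝ) / (1 + Real.exp (lam * v p q i))

/-- the variance -/
noncomputable def vr (p q : ℕ) (lam : ℝ) (I : Finset (ℕ × ℕ)) : ℝ :=
  ∑ i ∈ I, (v p q i : ℝ) ^ 2 * Real.exp (-(lam * v p q i)) /
    (1 + Real.exp (-(lam * v p q i))) ^ 2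

theorem second (p q : ℕ) (lam : ℝ) (I : Finset (ℕ × ℕ)) :
    ∑ A ∈ I.powerset, Real.exp (-(lam * (∑ i ∈ A, v p q i : ℕ))) *
      ((∑ i ∈ A, v p q i : ℕ) - mn p q lam I) ^ 2 = Z p q lam I * vr p q lam I := by
  classical
  have h := moment (fun i => Real.exp (-(lam * v p q i))) (fun i => (v p q i : ℝ))
    (fun _ => Real.exp_pos _) I (mn p q lam I)
  have h1 : ∑ i ∈ I, (v p q i : ℝ) * Real.exp (-(lam * v p q i)) /
      (1 + Real.exp (-(lam * v p q i))) = mn p q lam I := by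
    unfold mn
    refine sum_congr rfl (fun i _ => ?_)
    rw [Real.exp_neg]
    have := Real.exp_pos (lam * v p q i)
    field_simp
    ring
  rw [h1, sub_self, zero_pow two_ne_zero, add_zero] at h
  unfold Z vr
  rw [← h]
  refine sum_congr rfl (fun A _ => ?_)
  rw [← Real.exp_sum, sum_neg_distrib]
  push_cast
  rw [mul_sum]

/-- Chebyshev's inequality -/
theorem cheb (p q : ℕ) {lam δ : ℝ} (hδ : 0 < δ) (I : Finset (ℕ × ℕ))
    (h : 2 * vr p q lam I ≤ δ ^ 2) :
    Z p q lam I / 2 ≤ ∑ A ∈ I.powerset.filter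
      (fun A => ((∑ i ∈ A, v p q i : ℕ) - mn p q lam I) ^ 2 ≤ δ ^ 2),
      Real.exp (-(lam * (∑ i ∈ A, v p q i : ℕ))) := by
  classical
  have h1 := second p q lam I
  have h2 := Z_expand p q lam I
  rw [← sum_filter_add_sum_filter_not I.powerset
    (fun A => (((∑ i ∈ A, v p q i : ℕ) : ℝ) - mn p q lam I) ^ 2 ≤ δ ^ 2)] at h2
  have h3 : ∑ A ∈ I.powerset.filter
      (fun A => ¬ (((∑ i ∈ A, v p q i : ℕ) : ℝ) - mn p q lam I) ^ 2 ≤ δ ^ 2),
      Real.exp (-(lam * (∑ i ∈ A, v p q i : ℕ))) * δ ^ 2 ≤ Z p q lam I * vr p q lam I := by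
    rw [← h1]
    calc _ ≤ ∑ A ∈ I.powerset.filter
          (fun A => ¬ (((∑ i ∈ A, v p q i : ℕ) : ℝ) - mn p q lam I) ^ 2 ≤ δ ^ 2),
          Real.exp (-(lam * (∑ i ∈ A, v p q i : ℕ))) *
            ((∑ i ∈ A, v p q i : ℕ) - mn p q lam I) ^ 2 := by
          refine sum_le_sum (fun A hA => ?_)
          have := (mem_filter.1 hA).2
          push Not at this
          exact mul_le_mul_of_nonneg_left this.le (Real.exp_pos _).le
      _ ≤ _ := by
          refine sum_le_sum_of_subset_of_nonneg (filter_subset _ _) (fun A _ _ => ?_)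
          have := Real.exp_pos (-(lam * (∑ i ∈ A, v p q i : ℕ)))
          positivity
  rw [← sum_mul] at h3
  set S1 := ∑ A ∈ I.powerset.filter
      (fun A => ¬ (((∑ i ∈ A, v p q i : ℕ) : ℝ) - mn p q lam I) ^ 2 ≤ δ ^ 2),
      Real.exp (-(lam * (∑ i ∈ A, v p q i : ℕ)))
  have hZ := Z_pos p q lam I
  have hδ2 : 0 < δ ^ 2 := by positivity
  have h4 : S1 ≤ Z p q lam I / 2 := by
    have h5 : S1 * δ ^ 2 ≤ Z p q lam I / 2 * δ ^ 2 := by nlinarith
    exact le_of_mul_le_mul_right h5 hδ2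
  linarith

/-- the comparison function -/
noncomputable def kap (x : ℝ) : ℝ := x / (1 + x) ^ 2

theorem kap_nonneg {x : ℝ} (hx : 0 ≤ x) : 0 ≤ kap x := by unfold kap; positivity

theorem kap_row {r : ℕ} (hr : 1 < r) {x : ℝ} (hx : 0 < x) (k : ℕ) :
    ∑ a ∈ range k, kap (x * (r : ℝ) ^ a) ≤ 2 / (1 + x) := by
  have hr' : (2 : ℝ) ≤ r := by exact_mod_cast hr
  have key : ∀ a, kap (x * (r : ℝ) ^ a) ≤
      2 * (x * (r : ℝ) ^ (a + 1) / (1 + x * (r : ℝ) ^ (a + 1)) -
        x * (r : ℝ) ^ a / (1 + x * (r : ℝ) ^ a)) := by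
    intro a
    set y := x * (r : ℝ) ^ a with hy
    have hy0 : 0 < y := by positivity
    have e : x * (r : ℝ) ^ (a + 1) = r * y := by rw [hy, pow_succ]; ring
    rw [e]
    unfold kap
    rw [div_sub_div _ _ (by positivity) (by positivity), mul_div_assoc',
      div_le_div_iff₀ (by positivity) (by positivity)]
    have h1 : y * ((1 + r * y) * (1 + y)) = y * (1 + y) * (1 + r * y) := by ring
    have h2 : 2 * (r * y * (1 + y) - (1 + r * y) * y) * (1 + y) ^ 2 =
        y * (1 + y) * (2 * (r - 1) * (1 + y)) := by ring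
    rw [h1, h2]
    refine mul_le_mul_of_nonneg_left ?_ (by positivity)
    nlinarith
  calc ∑ a ∈ range k, kap (x * (r : ℝ) ^ a) ≤ ∑ a ∈ range k,
        2 * (x * (r : ℝ) ^ (a + 1) / (1 + x * (r : ℝ) ^ (a + 1)) -
        x * (r : ℝ) ^ a / (1 + x * (r : ℝ) ^ a)) := sum_le_sum (fun a _ => key a)
    _ = 2 * (x * (r : ℝ) ^ k / (1 + x * (r : ℝ) ^ k) - x / (1 + x)) := by
        rw [← mul_sum, sum_range_sub (fun a => x * (r : ℝ) ^ a / (1 + x * (r : ℝ) ^ a))]
        simp
    _ ≤ 2 * (1 - x / (1 + x)) := by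
        have h3 : x * (r : ℝ) ^ k / (1 + x * (r : ℝ) ^ k) ≤ 1 := by
          rw [div_le_one (by positivity)]
          linarith
        linarith
    _ = 2 / (1 + x) := by field_simp; ring

theorem kap_col {r : ℕ} (hr : 1 < r) {x : ℝ} (hx : 0 < x) (k : ℕ) :
    ∑ a ∈ range k, 1 / (1 + x * (r : ℝ) ^ a) ≤ 2 * Real.log (1 + 1 / x) := by
  have hr' : (2 : ℝ) ≤ r := by exact_mod_cast hr
  have key : ∀ a, 1 / (1 + x * (r : ℝ) ^ a) ≤
      2 * (Real.log (1 + 1 / (x * (r : ℝ) ^ a)) - Real.log (1 + 1 / (x * (r : ℝ) ^ (a + 1)))) := by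
    intro a
    set y := x * (r : ℝ) ^ a with hy
    have hy0 : 0 < y := by positivity
    have e : x * (r : ℝ) ^ (a + 1) = r * y := by rw [hy, pow_succ]; ring
    rw [e, ← Real.log_div (by positivity) (by positivity)]
    have h1 := Real.one_sub_inv_le_log_of_pos
      (show 0 < (1 + 1 / y) / (1 + 1 / (r * y)) by positivity)
    have h2 : 1 - ((1 + 1 / y) / (1 + 1 / (r * y)))⁻¹ = (r - 1) / (r * (1 + y)) := by
      field_simp
      ring
    rw [h2] at h1
    have h3 : 1 / (1 + y) ≤ 2 * ((r - 1) / (r * (1 + y))) := by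
      rw [mul_div_assoc', div_le_div_iff₀ (by positivity) (by positivity)]
      nlinarith
    linarith
  calc _ ≤ ∑ a ∈ range k, 2 * (Real.log (1 + 1 / (x * (r : ℝ) ^ a)) -
        Real.log (1 + 1 / (x * (r : ℝ) ^ (a + 1)))) := sum_le_sum (fun a _ => key a)
    _ = 2 * (Real.log (1 + 1 / x) - Real.log (1 + 1 / (x * (r : ℝ) ^ k))) := by
        rw [← mul_sum, sum_range_sub' (fun a => Real.log (1 + 1 / (x * (r : ℝ) ^ a)))]
        simp
    _ ≤ _ := by
        have : 0 ≤ Real.log (1 + 1 / (x * (r : ℝ) ^ k)) :=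
          Real.log_nonneg (by have : 0 ≤ 1 / (x * (r : ℝ) ^ k) := by positivity
                              linarith)
        linarith

theorem kap_sum {p q : ℕ} (hp : 1 < p) (hq : 1 < q) {lam : ℝ} (hl : 0 < lam)
    (I : Finset (ℕ × ℕ)) : ∑ i ∈ I, kap (lam * v p q i) ≤ 4 * Real.log (1 + 1 / lam) := by
  classical
  set a := (I.image Prod.fst).sup id + 1
  set b := (I.image Prod.snd).sup id + 1
  have hI : I ⊆ range a ×ˢ range b := by
    intro i hi
    rw [mem_product, mem_range, mem_range]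
    constructor
    · have : id i.1 ≤ (I.image Prod.fst).sup id := le_sup (mem_image_of_mem _ hi)
      simp only [id] at this
      omega
    · have : id i.2 ≤ (I.image Prod.snd).sup id := le_sup (mem_image_of_mem _ hi)
      simp only [id] at this
      omega
  calc ∑ i ∈ I, kap (lam * v p q i) ≤ ∑ i ∈ range a ×ˢ range b, kap (lam * v p q i) :=
        sum_le_sum_of_subset_of_nonneg hI (fun i _ _ => kap_nonneg (by positivity))
    _ = ∑ β ∈ range b, ∑ α ∈ range a, kap (lam * (q : ℝ) ^ β * (p : ℝ) ^ α) := by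
        rw [sum_product_right]
        refine sum_congr rfl (fun β _ => sum_congr rfl (fun α _ => ?_))
        congr 1
        simp only [v]
        push_cast
        ring
    _ ≤ ∑ β ∈ range b, 2 * (1 / (1 + lam * (q : ℝ) ^ β)) := by
        refine sum_le_sum (fun β _ => ?_)
        have := kap_row hp (show 0 < lam * (q : ℝ) ^ β by positivity) a
        rw [mul_one_div]
        exact this
    _ ≤ 4 * Real.log (1 + 1 / lam) := by
        rw [← mul_sum]
        have := kap_col hq hl b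
        linarith

theorem exp_mul_le {x : ℝ} (hx : 0 ≤ x) : x * Real.exp (-x) ≤ 4 * kap x := by
  unfold kap
  rw [Real.exp_neg, mul_div_assoc', ← div_eq_mul_inv,
    div_le_div_iff₀ (Real.exp_pos x) (by positivity)]
  have h1 := Real.add_one_le_exp (x / 2)
  have h2 : Real.exp x = Real.exp (x / 2) ^ 2 := by
    rw [← Real.exp_nat_mul]; congr 1; push_cast; ring
  have h3 : (1 + x) ^ 2 ≤ 4 * Real.exp x := by
    rw [h2]
    nlinarith [Real.exp_pos (x / 2)]
  nlinarith

theorem exp_sq_le {x : ℝ} (hx : 0 ≤ x) : x ^ 2 * Real.exp (-x) ≤ 27 * kap x := by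
  unfold kap
  rw [Real.exp_neg, mul_div_assoc', ← div_eq_mul_inv,
    div_le_div_iff₀ (Real.exp_pos x) (by positivity)]
  have h1 := Real.add_one_le_exp (x / 3)
  have h2 : Real.exp x = Real.exp (x / 3) ^ 3 := by
    rw [← Real.exp_nat_mul]; congr 1; push_cast; ring
  have h3 : (x / 3 + 1) ^ 3 ≤ Real.exp x := by
    rw [h2]
    exact pow_le_pow_left₀ (by positivity) h1 3
  have h4 : x * (1 + x) ^ 2 ≤ 27 * Real.exp x := by nlinarith [mul_nonneg hx hx]
  nlinarith

theorem mn_le {p q : ℕ} (hp : 1 < p) (hq : 1 < q) {lam : ℝ} (hl : 0 < lam)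
    (I : Finset (ℕ × ℕ)) : mn p q lam I ≤ 16 / lam * Real.log (1 + 1 / lam) := by
  have h1 : mn p q lam I ≤ 4 / lam * ∑ i ∈ I, kap (lam * v p q i) := by
    unfold mn
    rw [mul_sum]
    refine sum_le_sum (fun i _ => ?_)
    have h2 := exp_mul_le (show 0 ≤ lam * v p q i by positivity)
    have h3 : (v p q i : ℝ) / (1 + Real.exp (lam * v p q i)) ≤
        v p q i * Real.exp (-(lam * v p q i)) := by
      rw [Real.exp_neg, ← div_eq_mul_inv]
      exact div_le_div_of_nonneg_left (by positivity) (Real.exp_pos _) (by linarith)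
    refine h3.trans ?_
    rw [div_mul_eq_mul_div, le_div_iff₀ hl]
    linarith
  have h4 := kap_sum hp hq hl I
  calc mn p q lam I ≤ 4 / lam * ∑ i ∈ I, kap (lam * v p q i) := h1
    _ ≤ 4 / lam * (4 * Real.log (1 + 1 / lam)) := mul_le_mul_of_nonneg_left h4 (by positivity)
    _ = _ := by ring

theorem vr_le {p q : ℕ} (hp : 1 < p) (hq : 1 < q) {lam : ℝ} (hl : 0 < lam)
    (I : Finset (ℕ × ℕ)) : vr p q lam I ≤ 108 / lam ^ 2 * Real.log (1 + 1 / lam) := by
  have h1 : vr p q lam I ≤ 27 / lam ^ 2 * ∑ i ∈ I, kap (lam * v p q i) := by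
    unfold vr
    rw [mul_sum]
    refine sum_le_sum (fun i _ => ?_)
    have h2 := exp_sq_le (show 0 ≤ lam * v p q i by positivity)
    have h3 : (v p q i : ℝ) ^ 2 * Real.exp (-(lam * v p q i)) /
        (1 + Real.exp (-(lam * v p q i))) ^ 2 ≤
        (v p q i : ℝ) ^ 2 * Real.exp (-(lam * v p q i)) := by
      refine div_le_self (by positivity) ?_
      have := Real.exp_pos (-(lam * v p q i))
      exact one_le_pow₀ (by linarith)
    refine h3.trans ?_
    rw [div_mul_eq_mul_div, le_div_iff₀ (by positivity)]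
    calc (v p q i : ℝ) ^ 2 * Real.exp (-(lam * v p q i)) * lam ^ 2
        = (lam * v p q i) ^ 2 * Real.exp (-(lam * v p q i)) := by ring
      _ ≤ _ := h2
  have h4 := kap_sum hp hq hl I
  calc vr p q lam I ≤ 27 / lam ^ 2 * ∑ i ∈ I, kap (lam * v p q i) := h1
    _ ≤ 27 / lam ^ 2 * (4 * Real.log (1 + 1 / lam)) := mul_le_mul_of_nonneg_left h4 (by positivity)
    _ = _ := by ring

theorem vr_mono {p q : ℕ} {lam : ℝ} {I J : Finset (ℕ × ℕ)} (h : I ⊆ J) :
    vr p q lam I ≤ vr p q lam J := by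
  unfold vr
  exact sum_le_sum_of_subset_of_nonneg h (fun i _ _ => by positivity)

/-- the sum of the elements up to `x` is large -/
theorem sm_sum {p q : ℕ} (hp : 1 < p) (hq : 1 < q) (K : ℕ) :
    ∃ x₀ : ℕ, ∀ x : ℕ, x₀ ≤ x → K * x ≤ ∑ i ∈ sm p q x, v p q i := by
  classical
  refine ⟨q ^ (K * p), fun x hx => ?_⟩
  set al : ℕ → ℕ := fun j => Nat.log p (x / q ^ j) with hal
  have hj : ∀ j < K * p, v p q (al j, j) ≤ x ∧ x < p * v p q (al j, j) := by
    intro j hj
    have h1 : q ^ j ≤ x := le_trans (Nat.pow_le_pow_right (by omega) (by omega)) hx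
    have hqp : 0 < q ^ j := by positivity
    have h2 : x / q ^ j ≠ 0 := by
      have := Nat.div_pos h1 hqp
      omega
    have h3 : p ^ (al j) ≤ x / q ^ j := Nat.pow_log_le_self p h2
    have h4 : x / q ^ j < p ^ (al j + 1) := Nat.lt_pow_succ_log_self hp _
    unfold v
    simp only
    constructor
    · calc p ^ al j * q ^ j ≤ x / q ^ j * q ^ j := Nat.mul_le_mul_right _ h3
        _ ≤ x := Nat.div_mul_le_self _ _
    · rw [Nat.div_lt_iff_lt_mul hqp] at h4
      calc x < p ^ (al j + 1) * q ^ j := h4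
        _ = p * (p ^ al j * q ^ j) := by ring
  have hinj : Set.InjOn (fun j : ℕ => ((al j, j) : ℕ × ℕ)) (range (K * p) : Set ℕ) := by
    intro a _ b _ hab
    exact congrArg Prod.snd hab
  have h5 : ((range (K * p)).image (fun j : ℕ => ((al j, j) : ℕ × ℕ))) ⊆ sm p q x := by
    intro i hi
    obtain ⟨j, hj', rfl⟩ := mem_image.1 hi
    rw [mem_sm hp hq]
    exact (hj j (mem_range.1 hj')).1
  have h6 : ∑ i ∈ ((range (K * p)).image (fun j : ℕ => ((al j, j) : ℕ × ℕ))), v p q i
      ≤ ∑ i ∈ sm p q x, v p q i := sum_le_sum_of_subset h5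
  rw [sum_image hinj] at h6
  refine le_trans ?_ h6
  have h7 : ∑ j ∈ range (K * p), x ≤ ∑ j ∈ range (K * p), p * v p q (al j, j) :=
    sum_le_sum (fun j hj' => (hj j (mem_range.1 hj')).2.le)
  rw [sum_const, card_range, smul_eq_mul, ← mul_sum] at h7
  have h8 : p * (K * x) ≤ p * ∑ j ∈ range (K * p), v p q (al j, j) := by
    calc p * (K * x) = K * p * x := by ring
      _ ≤ _ := h7
  exact Nat.le_of_mul_le_mul_left h8 (by omega)

/-- the box of exponents -/
def bx (n : ℕ) : Finset (ℕ × ℕ) := range (n + 1) ×ˢ range (n + 1)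

/-- the tilt -/
theorem exists_lam {p q : ℕ} (hp : 1 < p) (hq : 1 < q) : ∃ n₁ : ℕ, ∀ n : ℕ, n₁ ≤ n →
    ∃ lam : ℝ, 1 / (n : ℝ) ≤ lam ∧ lam ≤ 16 * Real.log (1 + n) / n ∧ mn p q lam (bx n) = n := by
  obtain ⟨x₀, hx₀⟩ := sm_sum hp hq 4
  refine ⟨max x₀ 16, fun n hn => ?_⟩
  have hn0 : x₀ ≤ n := le_trans (le_max_left _ _) hn
  have hn1 : 16 ≤ n := le_trans (le_max_right _ _) hn
  have hn' : (16 : ℝ) ≤ n := by exact_mod_cast hn1
  have hnpos : (0 : ℝ) < n := by linarith
  have hcont : ContinuousOn (fun lam : ℝ => mn p q lam (bx n)) (Set.Icc (1 / (n : ℝ)) n) := by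
    unfold mn
    refine continuousOn_finsetSum _ (fun i _ => ?_)
    refine Continuous.continuousOn ?_
    refine Continuous.div continuous_const (by fun_prop) (fun x => ?_)
    have := Real.exp_pos (x * v p q i)
    positivity
  have hle : (1 : ℝ) / n ≤ n := by
    rw [div_le_iff₀ hnpos]
    nlinarith
  have hlow : mn p q (n : ℝ) (bx n) ≤ n := by
    unfold mn
    have h1 : ∀ i ∈ bx n, (v p q i : ℝ) / (1 + Real.exp ((n : ℝ) * v p q i)) ≤ 1 / (2 * (n : ℝ)) := by
      intro i _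
      have h5 := Real.add_one_le_exp ((n : ℝ) * v p q i / 2)
      have h6 : Real.exp ((n : ℝ) * v p q i) = Real.exp ((n : ℝ) * v p q i / 2) ^ 2 := by
        rw [← Real.exp_nat_mul]; congr 1; push_cast; ring
      have h0 : 0 ≤ (n : ℝ) * v p q i / 2 := by positivity
      rw [div_le_div_iff₀ (by positivity) (by positivity), h6]
      nlinarith [sq_nonneg (1 - (n : ℝ) * v p q i / 2)]
    calc _ ≤ ∑ i ∈ bx n, 1 / (2 * (n : ℝ)) := sum_le_sum h1
      _ = (n + 1) * (n + 1) / (2 * (n : ℝ)) := by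
          rw [sum_const, nsmul_eq_mul]
          unfold bx
          rw [card_product, card_range]
          push_cast
          ring
      _ ≤ n := by
          rw [div_le_iff₀ (by positivity)]
          nlinarith
  have hup : (n : ℝ) ≤ mn p q (1 / (n : ℝ)) (bx n) := by
    have h1 : sm p q n ⊆ bx n := by
      unfold sm bx
      exact filter_subset _ _
    have h2 : ∑ i ∈ sm p q n, (v p q i : ℝ) / 4 ≤ mn p q (1 / (n : ℝ)) (bx n) := by
      unfold mn
      refine le_trans (sum_le_sum (fun i hi => ?_))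
        (sum_le_sum_of_subset_of_nonneg h1 (fun i _ _ => by positivity))
      rw [mem_sm hp hq] at hi
      have h3 : (v p q i : ℝ) ≤ n := by exact_mod_cast hi
      refine div_le_div_of_nonneg_left (by positivity) (by positivity) ?_
      have h4 : 1 / (n : ℝ) * v p q i ≤ 1 := by
        rw [one_div, inv_mul_le_iff₀ hnpos]
        linarith
      have h5 : Real.exp (1 / (n : ℝ) * v p q i) ≤ Real.exp 1 := Real.exp_le_exp.2 h4
      have h6 := Real.exp_one_lt_d9
      linarith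
    refine le_trans ?_ h2
    rw [← sum_div]
    have h3 := hx₀ n hn0
    have h4 : (4 : ℝ) * n ≤ ∑ i ∈ sm p q n, (v p q i : ℝ) := by exact_mod_cast h3
    linarith
  obtain ⟨lam, hlam, hmn⟩ := intermediate_value_Icc' hle hcont ⟨hlow, hup⟩
  have hlp : 0 < lam := lt_of_lt_of_le (by positivity) hlam.1
  refine ⟨lam, hlam.1, ?_, hmn⟩
  have h1 := mn_le hp hq hlp (bx n)
  simp only at hmn
  rw [hmn] at h1
  have h2 : Real.log (1 + 1 / lam) ≤ Real.log (1 + n) := by
    refine Real.log_le_log (by positivity) ?_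
    have : 1 / lam ≤ n := by
      rw [div_le_iff₀ hlp]
      have := hlam.1
      rw [div_le_iff₀ hnpos] at this
      linarith
    linarith
  rw [le_div_iff₀ hnpos]
  rw [div_mul_eq_mul_div, le_div_iff₀ hlp] at h1
  linarith

end Pool.Agent.Q253.Bir
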