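import Pool.Agent.Q253.Bir.LowB

/-! The lower bound `f n ≥ exp (lam n) Z lam^(1 + ε)` at the tilt with mean `n`. -/

set_option autoImplicit false

open Finset

namespace Pool.Agent.Q253.Bir

theorem sq_lin (a b ε : ℝ) (hb : 0 ≤ b) (hε : 0 < ε) :
    ∃ T₁ : ℝ, 1 ≤ T₁ ∧ ∀ T : ℝ, T₁ ≤ T → a * Real.sqrt (T + 1) + b ≤ ε * T := by
  set K := 2 * a ^ 2 / ε ^ 2 + b / ε + 1 with hK
  refine ⟨4 * (K + 1), by have : 0 ≤ K := by positivity
                          linarith, fun T hT => ?_⟩
  have hK0 : 0 ≤ K := by positivity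
  have hT0 : 0 ≤ T := by linarith
  have hs0 : 0 ≤ Real.sqrt (T + 1) := Real.sqrt_nonneg _
  have hs : Real.sqrt (T + 1) ^ 2 = T + 1 := Real.sq_sqrt (by linarith)
  have h1 : a * Real.sqrt (T + 1) ≤ ε / 4 * (T + 1) + a ^ 2 / ε := by
    have h2 : 0 ≤ (ε * Real.sqrt (T + 1) / 2 - a) ^ 2 / ε := by positivity
    have h3 : (ε * Real.sqrt (T + 1) / 2 - a) ^ 2 / ε =
        ε / 4 * Real.sqrt (T + 1) ^ 2 + a ^ 2 / ε - a * Real.sqrt (T + 1) := by
      field_simp
      ring
    rw [hs] at h3
    linarith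
  have h4 : ε * K = 2 * a ^ 2 / ε + b + ε := by
    rw [hK]; field_simp
  have h5 : ε * (4 * (K + 1)) ≤ ε * T := mul_le_mul_of_nonneg_left hT hε.le
  have h6 : 0 ≤ a ^ 2 / ε := by positivity
  have h7 : ε * (4 * (K + 1)) = 8 * (a ^ 2 / ε) + 4 * b + 8 * ε := by
    calc ε * (4 * (K + 1)) = 4 * (ε * K) + 4 * ε := by ring
      _ = _ := by rw [h4]; ring
  nlinarith

theorem mn_union (p q : ℕ) (lam : ℝ) {I J : Finset (ℕ × ℕ)} (h : Disjoint I J) :
    mn p q lam (I ∪ J) = mn p q lam I + mn p q lam J := by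
  unfold mn
  exact sum_union h

theorem mn_half (p q : ℕ) {lam : ℝ} (hl : 0 ≤ lam) (I : Finset (ℕ × ℕ)) :
    mn p q lam I ≤ (∑ i ∈ I, v p q i : ℕ) / 2 := by
  unfold mn
  push_cast
  rw [sum_div]
  refine sum_le_sum (fun i _ => ?_)
  refine div_le_div_of_nonneg_left (by positivity) (by norm_num) ?_
  have : 1 ≤ Real.exp (lam * v p q i) := Real.one_le_exp (by positivity)
  linarith

theorem mn_nonneg (p q : ℕ) (lam : ℝ) (I : Finset (ℕ × ℕ)) : 0 ≤ mn p q lam I := by
  unfold mn
  exact sum_nonneg (fun i _ => by positivity)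

theorem lowC {p q : ℕ} (hp : 1 < p) (hq : 1 < q) (h : Nat.Coprime p q) (ε : ℝ) (hε : 0 < ε) :
    ∃ T₁ : ℝ, 1 ≤ T₁ ∧ ∀ lam : ℝ, 0 < lam → T₁ ≤ Real.log (1 / lam) → ∀ n : ℕ,
      1 / (n : ℝ) ≤ lam → mn p q lam (bx n) = n →
      Real.exp (lam * n) * Z p q lam (bx n) * lam ^ (1 + ε) ≤ f p q n := by
  classical
  have : NeZero p := ⟨by omega⟩
  have hp' : (1 : ℝ) < p := by exact_mod_cast hp
  have hq' : (1 : ℝ) < q := by exact_mod_cast hq
  have hp0 : (0 : ℝ) < p := by linarith
  have hlp : 0 < Real.log p := Real.log_pos hp'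
  have hlq : 0 < Real.log q := Real.log_pos hq'
  set φ := Nat.totient p with hφ'
  have hφ : 0 < φ := Nat.totient_pos.2 (by omega)
  have hQ : ((q ^ φ : ℕ) : ZMod p) = 1 := by
    have := Nat.ModEq.pow_totient h.symm
    rw [← ZMod.natCast_eq_natCast_iff] at this
    rw [this]
    simp
  -- the constants
  set θ : ℝ := (p : ℝ) ^ (-(ε / 2)) with hθ
  have hθ0 : 0 < θ := by positivity
  have hθ1 : θ < 1 := Real.rpow_lt_one_of_one_lt_of_neg hp' (by linarith)
  obtain ⟨B, hB⟩ := u_equi p (1 - θ) (by linarith)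
  obtain ⟨n₀, hb⟩ := birch hp hq h
  set Q := q ^ φ with hQdef
  set w₀ := n₀ + Q ^ B with hw₀
  set A₂ := w₀ + p with hA₂
  set T₀ := ∑ i ∈ sm p q A₂, v p q i with hT₀
  set sM := (sm p q A₂).card with hsM
  set β := φ * B + A₂ with hβ
  have hβ1 : A₂ < q ^ β := by
    have h1 : A₂ ≤ β := by omega
    have h2 : β < q ^ β := Nat.lt_pow_self hq
    omega
  set c₁ : ℝ := 1 + Real.exp p with hc₁
  have hc1 : 2 ≤ c₁ := by
    have : 1 ≤ Real.exp (p : ℝ) := Real.one_le_exp (by linarith)
    linarith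
  set W : ℝ := (w₀ : ℝ) + (Q : ℝ) ^ B + T₀ with hW
  have hW0 : 0 ≤ W := by positivity
  obtain ⟨T₁, hT₁, hT1⟩ := sq_lin (15 * c₁ * p * Real.log q)
    ((β + 1 + c₁ * W) * Real.log q + Real.log p) 1 (by positivity) one_pos
  obtain ⟨T₂, hT₂, hT2⟩ := sq_lin ((Real.log 2 + p) * (15 * c₁ * p))
    (Real.log 2 * (sM + 1 + (c₁ * W + 1)) + A₂ + p * (c₁ * W + 1)) (ε / 2)
    (by have : 0 < Real.log 2 := Real.log_pos (by norm_num)
        positivity) (by positivity)
  set T₃ : ℝ := (A₂ + 1) * Real.log p with hT₃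
  refine ⟨T₁ + T₂ + T₃, by have : 0 ≤ T₃ := by positivity
                           linarith, fun lam hl hT n hn hmn => ?_⟩
  set T := Real.log (1 / lam) with hTdef
  have hT3' : 0 ≤ T₃ := by positivity
  have hTT1 : T₁ ≤ T := by linarith
  have hTT2 : T₂ ≤ T := by linarith
  have hTT3 : T₃ ≤ T := by linarith
  have hTpos : 1 ≤ T := by linarith
  have hinv : 1 / lam = Real.exp T := by rw [hTdef, Real.exp_log (by positivity)]
  have h1l : 1 ≤ 1 / lam := by rw [hinv]; exact Real.one_le_exp (by linarith)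
  have hl1 : lam ≤ 1 := by
    rw [le_div_iff₀ hl] at h1l
    linarith
  -- the number of digits
  obtain ⟨J, hJ1, hJ2⟩ := exists_k hp h1l
  have hlamP : lam * (p : ℝ) ^ J ≤ 1 := by
    rw [le_div_iff₀ hl] at hJ1
    linarith
  have hJA : A₂ + 1 ≤ J := by
    have h1 : (p : ℝ) ^ (A₂ + 1) ≤ 1 / lam := by
      rw [hinv, ← Real.exp_log (show (0 : ℝ) < (p : ℝ) ^ (A₂ + 1) by positivity)]
      refine Real.exp_le_exp.2 ?_
      rw [Real.log_pow]
      push_cast
      exact hTT3
    have h2 := lt_of_le_of_lt h1 hJ2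
    have h3 := (pow_lt_pow_iff_right₀ hp').1 h2
    omega
  have hnpos : (0 : ℝ) < n := by
    rcases Nat.eq_zero_or_pos n with h0 | h0
    · subst h0
      exfalso
      have h1 : (0 : ℕ) < 1 := one_pos
      have h2 : mn p q lam (bx 0) = 0 := by rw [hmn]; simp
      have h3 : 0 < mn p q lam (bx 0) := by
        unfold mn bx
        refine sum_pos (fun i _ => ?_) ⟨(0, 0), by simp⟩
        have := v_pos hp hq i
        have h4 : (0 : ℝ) < v p q i := by exact_mod_cast this
        positivity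
      linarith
    · exact_mod_cast h0
  have hJn : p ^ J ≤ n := by
    have h1 : (p : ℝ) ^ J ≤ n := by
      refine hJ1.trans ?_
      rw [div_le_iff₀ hl]
      rw [div_le_iff₀ hnpos] at hn
      linarith
    exact_mod_cast h1
  -- the number of correcting elements
  set x := Real.log (1 + 1 / lam) with hx
  have hx0 : 0 ≤ x := Real.log_nonneg (by have : 0 < 1 / lam := by positivity
                                          linarith)
  have hxpos : 0 < x := Real.log_pos (by have : 0 < 1 / lam := by positivity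
                                         linarith)
  have hxT : x ≤ T + 1 := by
    rw [hx, ← Real.log_exp (T + 1)]
    refine Real.log_le_log (by positivity) ?_
    rw [Real.exp_add, ← hinv]
    have h1 := Real.exp_one_gt_d9
    nlinarith
  set m := ⌈c₁ * (15 * p * Real.sqrt x + W)⌉₊ with hm
  have hm1 : c₁ * (15 * p * Real.sqrt x + W) ≤ m := Nat.le_ceil _
  have hm2 : (m : ℝ) ≤ 15 * c₁ * p * Real.sqrt (T + 1) + (c₁ * W + 1) := by
    have h1 : (m : ℝ) < c₁ * (15 * p * Real.sqrt x + W) + 1 := Nat.ceil_lt_add_one (by positivity)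
    have h2 : Real.sqrt x ≤ Real.sqrt (T + 1) := Real.sqrt_le_sqrt hxT
    have h3 : 15 * c₁ * p * Real.sqrt x ≤ 15 * c₁ * p * Real.sqrt (T + 1) :=
      mul_le_mul_of_nonneg_left h2 (by positivity)
    linarith
  have hJq : q ^ (β + m) ≤ p ^ J := by
    have h1 := hT1 T hTT1
    have h2 : T ≤ (J + 1) * Real.log p := by
      have h3 := Real.log_le_log (by positivity) hJ2.le
      rw [Real.log_pow] at h3
      push_cast at h3
      exact h3
    have h3 : ((β + m : ℕ) : ℝ) * Real.log q ≤ J * Real.log p := by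
      have h4 : (m : ℝ) * Real.log q ≤
          (15 * c₁ * p * Real.sqrt (T + 1) + (c₁ * W + 1)) * Real.log q :=
        mul_le_mul_of_nonneg_right hm2 hlq.le
      push_cast
      linarith
    rw [← Real.log_pow, ← Real.log_pow] at h3
    have h5 := (Real.log_le_log_iff (by positivity) (by positivity)).1 h3
    exact_mod_cast h5
  -- the sets
  set L := LL φ hφ J B with hL
  set Tp := (sm p q A₂).map (shf J) with hTp
  set Cs := CC p q J β m with hCs
  set K := L ∪ Tp ∪ Cs with hK
  have hβmn : β + m < n := by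
    have h1 : β + m < q ^ (β + m) := Nat.lt_pow_self hq
    omega
  have hJAn : J + A₂ < n := by
    have h1 : 2 * J ≤ p ^ J := by
      have h2 : 2 * J ≤ 2 ^ J := by
        obtain ⟨j, rfl⟩ : ∃ j, J = j + 1 := ⟨J - 1, by omega⟩
        have := Nat.lt_two_pow_self (n := j)
        rw [pow_succ]
        omega
      exact h2.trans (Nat.pow_le_pow_left hp _)
    omega
  have hKI : K ⊆ bx n := by
    intro i hi
    unfold bx
    rw [mem_product, mem_range, mem_range]
    rw [hK, mem_union, mem_union] at hi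
    rcases hi with (hi | hi) | hi
    · rw [hL] at hi
      unfold LL at hi
      obtain ⟨a, ha, rfl⟩ := mem_map.1 hi
      rw [mem_product, mem_range, mem_range] at ha
      have h1 : φ * a.2 < φ * B := Nat.mul_lt_mul_of_pos_left ha.2 hφ
      show a.1 < n + 1 ∧ φ * a.2 < n + 1
      omega
    · obtain ⟨a, ha, rfl⟩ := mem_map.1 hi
      rw [mem_sm hp hq] at ha
      have h1 := two_pow_le_v hp hq a
      have h2 : a.1 + a.2 < 2 ^ (a.1 + a.2) := Nat.lt_two_pow_self
      show a.1 + J < n + 1 ∧ a.2 < n + 1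
      omega
    · rw [hCs] at hi
      unfold CC at hi
      obtain ⟨b, hb', rfl⟩ := mem_image.1 hi
      rw [mem_Ico] at hb'
      show J - Nat.log p (q ^ b) < n + 1 ∧ b < n + 1
      omega
  set R := bx n \ K with hR
  have hRK : R ∪ K = bx n := sdiff_union_of_subset hKI
  have hd : Disjoint R K := sdiff_disjoint
  -- sums over the sets
  have hq1 : 1 < Q := Nat.one_lt_pow (by omega) hq
  have hsL : ∑ i ∈ L, v p q i ≤ p ^ J * Q ^ B := by
    rw [hL]
    unfold LL
    rw [sum_iota]
    exact sum_block hp hq1 J B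
  have hsT : ∑ i ∈ Tp, v p q i = p ^ J * T₀ := sum_shf p q J _
  have htb : ∀ i ∈ Cs, p ^ J ≤ v p q i ∧ v p q i ≤ p ^ J * p := by
    intro i hi
    rw [hCs] at hi
    unfold CC at hi
    obtain ⟨b, hb', rfl⟩ := mem_image.1 hi
    rw [mem_Ico] at hb'
    exact tt_bounds hp hq (le_trans (Nat.pow_le_pow_right (by omega) hb'.2.le) hJq)
  have hCcard : Cs.card = m := by
    rw [hCs]
    unfold CC
    rw [card_image_of_injective _ (tt_inj p q J), Nat.card_Ico]
    omega
  have hsC1 : m * p ^ J ≤ ∑ i ∈ Cs, v p q i := by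
    rw [← hCcard, ← smul_eq_mul]
    exact card_nsmul_le_sum _ _ _ (fun i hi => (htb i hi).1)
  have hsC2 : ∑ i ∈ Cs, v p q i ≤ m * (p ^ J * p) := by
    rw [← hCcard, ← smul_eq_mul]
    exact sum_le_card_nsmul _ _ _ (fun i hi => (htb i hi).2)
  set P : ℝ := (p : ℝ) ^ J with hP
  have hPpos : 0 < P := by positivity
  set SC : ℝ := ((∑ i ∈ Cs, v p q i : ℕ) : ℝ) with hSC
  have hSC1 : m * P ≤ SC := by rw [hSC, hP]; exact_mod_cast hsC1
  have hSC2 : SC ≤ m * (P * p) := by rw [hSC, hP]; exact_mod_cast hsC2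
  -- the deviation
  set δ : ℝ := 15 * Real.sqrt x / lam with hδ
  have hδ0 : 0 < δ := by
    have : 0 < Real.sqrt x := Real.sqrt_pos.2 hxpos
    positivity
  have hδP : δ ≤ 15 * p * Real.sqrt x * P := by
    rw [hδ]
    have h1 : 1 / lam ≤ P * p := by
      have := hJ2.le
      rw [pow_succ] at this
      exact this
    calc 15 * Real.sqrt x / lam = 15 * Real.sqrt x * (1 / lam) := by ring
      _ ≤ 15 * Real.sqrt x * (P * p) := mul_le_mul_of_nonneg_left h1 (by positivity)
      _ = _ := by ring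
  have hvar : 2 * vr p q lam R ≤ δ ^ 2 := by
    have h1 := (vr_mono (lam := lam) (p := p) (q := q) (I := R) (J := bx n) sdiff_subset).trans
      (vr_le hp hq hl (bx n))
    rw [← hx] at h1
    have h2 : δ ^ 2 = 225 / lam ^ 2 * x := by
      rw [hδ, div_pow, mul_pow, Real.sq_sqrt hx0]
      ring
    rw [h2]
    have h3 : 0 ≤ x / lam ^ 2 := by positivity
    have h4 : 108 / lam ^ 2 * x = 108 * (x / lam ^ 2) := by ring
    have h5 : 225 / lam ^ 2 * x = 225 * (x / lam ^ 2) := by ring
    rw [h4] at h1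
    rw [h5]
    linarith
  have hcheb := cheb p q hδ0 R hvar
  -- the mean of the complement
  have hmR : mn p q lam R = n - mn p q lam K := by
    have := mn_union p q lam hd
    rw [hRK, hmn] at this
    linarith
  have hmK1 : δ + w₀ * P ≤ mn p q lam K := by
    have h1 : mn p q lam Cs ≤ mn p q lam K := by
      unfold mn
      exact sum_le_sum_of_subset_of_nonneg subset_union_right (fun i _ _ => by positivity)
    have h2 : SC / c₁ ≤ mn p q lam Cs := by
      unfold mn
      rw [hSC]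
      push_cast
      rw [sum_div]
      refine sum_le_sum (fun i hi => ?_)
      refine div_le_div_of_nonneg_left (by positivity) (by positivity) ?_
      have h3 : lam * v p q i ≤ p := by
        have h4 : (v p q i : ℝ) ≤ P * p := by
          have := (htb i hi).2
          rw [hP]; exact_mod_cast this
        calc lam * v p q i ≤ lam * (P * p) := mul_le_mul_of_nonneg_left h4 hl.le
          _ = lam * P * p := by ring
          _ ≤ 1 * p := mul_le_mul_of_nonneg_right hlamP hp0.le
          _ = p := one_mul _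
      have := Real.exp_le_exp.2 h3
      linarith
    have h5 : δ + w₀ * P ≤ SC / c₁ := by
      rw [le_div_iff₀ (by linarith)]
      have h6 : c₁ * (15 * p * Real.sqrt x + W) * P ≤ m * P := mul_le_mul_of_nonneg_right hm1 hPpos.le
      have h7 : (w₀ : ℝ) * P ≤ W * P := by
        refine mul_le_mul_of_nonneg_right ?_ hPpos.le
        have : 0 ≤ (Q : ℝ) ^ B + T₀ := by positivity
        rw [hW]; linarith
      have h8 : (δ + w₀ * P) * c₁ ≤ (15 * p * Real.sqrt x * P + W * P) * c₁ :=
        mul_le_mul_of_nonneg_right (by linarith) (by linarith)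
      linarith
    linarith
  have hmK2 : mn p q lam K + δ ≤ A₂ * P + SC := by
    have h1 : mn p q lam K ≤ (Q : ℝ) ^ B * P + T₀ * P + SC / 2 := by
      have h2 := mn_half p q hl.le L
      have h3 := mn_half p q hl.le Tp
      have h4 := mn_half p q hl.le Cs
      have h5 : mn p q lam K ≤ mn p q lam L + mn p q lam Tp + mn p q lam Cs := by
        have e1 : ∀ I J : Finset (ℕ × ℕ), mn p q lam (I ∪ J) ≤ mn p q lam I + mn p q lam J := by
          intro I J
          unfold mn
          rw [← sum_union_inter]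
          have : 0 ≤ ∑ i ∈ I ∩ J, (v p q i : ℝ) / (1 + Real.exp (lam * v p q i)) :=
            sum_nonneg (fun i _ => by positivity)
          linarith
        have h6 := e1 (L ∪ Tp) Cs
        have h7 := e1 L Tp
        linarith
      have h8 : ((∑ i ∈ L, v p q i : ℕ) : ℝ) ≤ (Q : ℝ) ^ B * P := by
        have h9 : ((∑ i ∈ L, v p q i : ℕ) : ℝ) ≤ ((p ^ J * Q ^ B : ℕ) : ℝ) := by exact_mod_cast hsL
        push_cast at h9 ⊢
        rw [hP]; linarith
      have h10 : ((∑ i ∈ Tp, v p q i : ℕ) : ℝ) = T₀ * P := by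
        rw [hsT, hP]; push_cast; ring
      have h11 : 0 ≤ (Q : ℝ) ^ B * P := by positivity
      have h12 : 0 ≤ (T₀ : ℝ) * P := by positivity
      rw [h10] at h3
      linarith
    have h6 : c₁ * (15 * p * Real.sqrt x + W) * P ≤ m * P := mul_le_mul_of_nonneg_right hm1 hPpos.le
    have h7 : 2 * ((15 * p * Real.sqrt x + W) * P) ≤ c₁ * (15 * p * Real.sqrt x + W) * P := by
      have h8 : 0 ≤ (15 * p * Real.sqrt x + W) * P := by positivity
      nlinarith
    have h9 : ((Q : ℝ) ^ B + T₀) * P ≤ W * P := by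
      refine mul_le_mul_of_nonneg_right ?_ hPpos.le
      rw [hW]
      have : (0 : ℝ) ≤ w₀ := by positivity
      linarith
    have h10 : 0 ≤ (A₂ : ℝ) * P := by positivity
    linarith
  -- the count
  set U : ℝ := (θ * (2 ^ B / p)) ^ J with hU
  have hU0 : 0 < U := by positivity
  have hcnt : ∀ A ∈ R.powerset.filter
      (fun A => ((∑ i ∈ A, v p q i : ℕ) - mn p q lam R) ^ 2 ≤ δ ^ 2),
      U ≤ (∑ A' ∈ K.powerset, if ∑ i ∈ A ∪ A', v p q i = n then (1 : ℝ) else 0) ∧
      Real.exp (-(lam * (∑ i ∈ A, v p q i : ℕ))) ≤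
        Real.exp (-(lam * n)) * Real.exp (A₂ + m * p) := by
    intro A hA
    rw [mem_filter, mem_powerset] at hA
    obtain ⟨hAR, hA2⟩ := hA
    have h1 := abs_le_of_sq_le_sq' hA2 hδ0.le
    rw [hmR] at h1
    set S := ∑ i ∈ A, v p q i with hS
    have h2 : (S : ℝ) + w₀ * P ≤ n := by linarith
    have h3 : (n : ℝ) ≤ S + (A₂ * P + SC) := by linarith
    have hSn : S + w₀ * p ^ J ≤ n := by
      rw [hP] at h2
      exact_mod_cast h2
    have hSn2 : n ≤ S + (A₂ * p ^ J + ∑ i ∈ Cs, v p q i) := by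
      rw [hP, hSC] at h3
      exact_mod_cast h3
    obtain ⟨M, hM⟩ := lowA hp hq hφ hb (J := J) (m := m) (β := β) (A₂ := A₂) (B := B)
      (by omega) hβ1 hJq (le_refl _) (n - S) (by rw [← hw₀]; omega) (by rw [← hCs]; omega)
    constructor
    · have h4 := (N_bounds hQ (show 1 - θ ≤ 1 by linarith) hB J M).1
      have e1 : 1 - (1 - θ) = θ := by ring
      rw [e1] at h4
      refine (h4.trans hM).trans (le_of_eq ?_)
      refine sum_congr rfl (fun A' hA' => ?_)
      rw [mem_powerset] at hA'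
      rw [sum_union ((hd.mono_left hAR).mono_right hA'), ← hS]
      have e2 : (∑ i ∈ A', v p q i = n - S) ↔ (S + ∑ i ∈ A', v p q i = n) := by omega
      simp only [e2]
    · rw [← Real.exp_add]
      refine Real.exp_le_exp.2 ?_
      have h5 : lam * n ≤ lam * (S + (A₂ * P + SC)) := mul_le_mul_of_nonneg_left h3 hl.le
      have h6 : lam * (A₂ * P) ≤ A₂ := by
        calc lam * (A₂ * P) = A₂ * (lam * P) := by ring
          _ ≤ A₂ * 1 := mul_le_mul_of_nonneg_left hlamP (by positivity)
          _ = A₂ := mul_one _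
      have h7 : lam * SC ≤ m * p := by
        calc lam * SC ≤ lam * (m * (P * p)) := mul_le_mul_of_nonneg_left hSC2 hl.le
          _ = m * p * (lam * P) := by ring
          _ ≤ m * p * 1 := mul_le_mul_of_nonneg_left hlamP (by positivity)
          _ = m * p := mul_one _
      linarith
  have hfin : U * (Z p q lam R / 2) ≤ f p q n * (Real.exp (-(lam * n)) * Real.exp (A₂ + m * p)) := by
    calc U * (Z p q lam R / 2) ≤ U * ∑ A ∈ R.powerset.filter
          (fun A => ((∑ i ∈ A, v p q i : ℕ) - mn p q lam R) ^ 2 ≤ δ ^ 2),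
          Real.exp (-(lam * (∑ i ∈ A, v p q i : ℕ))) := mul_le_mul_of_nonneg_left hcheb hU0.le
      _ = ∑ A ∈ R.powerset.filter
          (fun A => ((∑ i ∈ A, v p q i : ℕ) - mn p q lam R) ^ 2 ≤ δ ^ 2),
          U * Real.exp (-(lam * (∑ i ∈ A, v p q i : ℕ))) := mul_sum _ _ _
      _ ≤ ∑ A ∈ R.powerset.filter
          (fun A => ((∑ i ∈ A, v p q i : ℕ) - mn p q lam R) ^ 2 ≤ δ ^ 2),
          (∑ A' ∈ K.powerset, if ∑ i ∈ A ∪ A', v p q i = n then (1 : ℝ) else 0) *
            (Real.exp (-(lam * n)) * Real.exp (A₂ + m * p)) := by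
          refine sum_le_sum (fun A hA => ?_)
          obtain ⟨h1, h2⟩ := hcnt A hA
          exact mul_le_mul h1 h2 (Real.exp_pos _).le (hU0.le.trans h1)
      _ ≤ ∑ A ∈ R.powerset,
          (∑ A' ∈ K.powerset, if ∑ i ∈ A ∪ A', v p q i = n then (1 : ℝ) else 0) *
            (Real.exp (-(lam * n)) * Real.exp (A₂ + m * p)) := by
          refine sum_le_sum_of_subset_of_nonneg (filter_subset _ _) (fun A _ _ => ?_)
          have : 0 ≤ ∑ A' ∈ K.powerset, if ∑ i ∈ A ∪ A', v p q i = n then (1 : ℝ) else 0 :=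
            sum_nonneg (fun _ _ => by split_ifs <;> norm_num)
          positivity
      _ = cnt p q (bx n) n * (Real.exp (-(lam * n)) * Real.exp (A₂ + m * p)) := by
          rw [← sum_mul]
          congr 1
          rw [cnt_eq, ← hRK, sum_pow_union R K hd]
      _ ≤ _ := by
          refine mul_le_mul_of_nonneg_right ?_ (by positivity)
          exact_mod_cast cnt_le_f hp hq h (bx n) n
  have hZK : Z p q lam K ≤ 2 ^ (J * B + sM + m) := by
    refine (Z_le_two p q hl.le K).trans (pow_le_pow_right₀ (by norm_num) ?_)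
    have h1 : K.card ≤ L.card + Tp.card + Cs.card :=
      (card_union_le _ _).trans (Nat.add_le_add_right (card_union_le _ _) _)
    have h2 : L.card = J * B := by
      rw [hL]
      unfold LL
      rw [card_map, card_product, card_range, card_range]
    have h3 : Tp.card = sM := card_map _
    omega
  have hZI : Z p q lam (bx n) = Z p q lam R * Z p q lam K := by
    rw [← Z_union p q lam hd, hRK]
  have hUe : U = 2 ^ (J * B) * (θ / p) ^ J := by
    rw [hU, mul_div_assoc', mul_comm θ, mul_div_assoc, mul_pow, ← pow_mul, mul_comm B J]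
  have hθJ : lam ^ (1 + ε / 2) ≤ (θ / p) ^ J := by
    have e1 : θ / p = (p : ℝ) ^ (-(1 + ε / 2)) := by
      rw [hθ, ← Real.rpow_sub_one hp0.ne']
      congr 1; ring
    rw [e1]
    calc lam ^ (1 + ε / 2) = (1 / lam) ^ (-(1 + ε / 2)) := by
          rw [one_div, Real.inv_rpow hl.le, Real.rpow_neg hl.le, inv_inv]
      _ ≤ (P) ^ (-(1 + ε / 2)) :=
          Real.rpow_le_rpow_of_nonpos hPpos hJ1 (by linarith)
      _ = ((p : ℝ) ^ (-(1 + ε / 2))) ^ J := by
          rw [hP, ← Real.rpow_natCast, ← Real.rpow_natCast, ← Real.rpow_mul hp0.le,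
            ← Real.rpow_mul hp0.le, mul_comm]
  have hsmall : lam ^ (ε / 2) * (2 ^ (sM + m + 1) * Real.exp (A₂ + m * p)) ≤ 1 := by
    have h1 := hT2 T hTT2
    have e1 : lam ^ (ε / 2) = Real.exp (-(ε / 2 * T)) := by
      have : lam = Real.exp (-T) := by
        rw [Real.exp_neg, ← hinv, one_div, inv_inv]
      rw [this, ← Real.exp_mul]
      congr 1; ring
    have e2 : (2 : ℝ) ^ (sM + m + 1) = Real.exp (((sM + m + 1 : ℕ) : ℝ) * Real.log 2) := by
      rw [← Real.log_pow, Real.exp_log (by positivity)]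
    rw [e1, e2, ← Real.exp_add, ← Real.exp_add, Real.exp_le_one_iff]
    have hl2 : 0 < Real.log 2 := Real.log_pos (by norm_num)
    have h3 : (m : ℝ) * Real.log 2 ≤
        (15 * c₁ * p * Real.sqrt (T + 1) + (c₁ * W + 1)) * Real.log 2 :=
      mul_le_mul_of_nonneg_right hm2 hl2.le
    have h4 : (m : ℝ) * p ≤ (15 * c₁ * p * Real.sqrt (T + 1) + (c₁ * W + 1)) * p :=
      mul_le_mul_of_nonneg_right hm2 hp0.le
    push_cast
    linarith
  -- assembly
  have hZR := (Z_pos p q lam R).le
  have hZKp := (Z_pos p q lam K).le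
  have e3 : Real.exp (lam * n) * Real.exp (-(lam * n)) = 1 := by
    rw [← Real.exp_add]; simp
  have h2JB : (0 : ℝ) < 2 ^ (J * B) := by positivity
  have step1 : Z p q lam (bx n) ≤ Z p q lam R * (2 ^ (J * B) * 2 ^ (sM + m)) := by
    rw [hZI, ← pow_add]
    refine mul_le_mul_of_nonneg_left ?_ hZR
    have e4 : J * B + (sM + m) = J * B + sM + m := by ring
    rw [e4]
    exact hZK
  have step2 : (θ / p) ^ J * Z p q lam (bx n) ≤ f p q n *
      (Real.exp (-(lam * n)) * (2 ^ (sM + m + 1) * Real.exp (A₂ + m * p))) := by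
    calc (θ / p) ^ J * Z p q lam (bx n)
        ≤ (θ / p) ^ J * (Z p q lam R * (2 ^ (J * B) * 2 ^ (sM + m))) :=
          mul_le_mul_of_nonneg_left step1 (by positivity)
      _ = U * (Z p q lam R / 2) * 2 ^ (sM + m + 1) := by
          rw [hUe, pow_succ]; ring
      _ ≤ f p q n * (Real.exp (-(lam * n)) * Real.exp (A₂ + m * p)) * 2 ^ (sM + m + 1) :=
          mul_le_mul_of_nonneg_right hfin (by positivity)
      _ = _ := by ring
  have e5 : lam ^ (1 + ε) = lam ^ (1 + ε / 2) * lam ^ (ε / 2) := by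
    rw [← Real.rpow_add hl]; congr 1; ring
  have hf0 : (0 : ℝ) ≤ f p q n := by positivity
  have hZb := (Z_pos p q lam (bx n)).le
  calc Real.exp (lam * n) * Z p q lam (bx n) * lam ^ (1 + ε)
      = Real.exp (lam * n) * lam ^ (ε / 2) * (lam ^ (1 + ε / 2) * Z p q lam (bx n)) := by
        rw [e5]; ring
    _ ≤ Real.exp (lam * n) * lam ^ (ε / 2) * ((θ / p) ^ J * Z p q lam (bx n)) := by
        refine mul_le_mul_of_nonneg_left ?_ (by positivity)
        exact mul_le_mul_of_nonneg_right hθJ hZb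
    _ ≤ Real.exp (lam * n) * lam ^ (ε / 2) * (f p q n *
      (Real.exp (-(lam * n)) * (2 ^ (sM + m + 1) * Real.exp (A₂ + m * p)))) :=
        mul_le_mul_of_nonneg_left step2 (by positivity)
    _ = f p q n * (lam ^ (ε / 2) * (2 ^ (sM + m + 1) * Real.exp (A₂ + m * p))) *
        (Real.exp (lam * n) * Real.exp (-(lam * n))) := by ring
    _ ≤ f p q n * 1 * 1 := by
        rw [e3]
        refine mul_le_mul_of_nonneg_right ?_ (by norm_num)
        exact mul_le_mul_of_nonneg_left hsmall hf0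
    _ = f p q n := by ring

end Pool.Agent.Q253.Bir
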