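import Pool.Agent.Q253.Bir.LowC

/-! The growth of `f` under dilations. -/

set_option autoImplicit false

open Finset Filter

namespace Pool.Agent.Q253.Bir

theorem tail_small : ∃ n₁ : ℕ, ∀ n : ℕ, n₁ ≤ n →
    4 * (n : ℝ) ^ 2 * (1 / 2) ^ n * ∑' i : ℕ × ℕ, ((1 : ℝ) / 2) ^ i.1 * (1 / 2) ^ i.2 ≤ 1 := by
  have h := tendsto_pow_const_mul_const_pow_of_abs_lt_one 2
    (show |(1 : ℝ) / 2| < 1 by rw [abs_of_pos (by norm_num)]; norm_num)
  have h2 : Tendsto (fun n : ℕ => 4 * ((n : ℝ) ^ 2 * (1 / 2) ^ n) *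
      ∑' i : ℕ × ℕ, ((1 : ℝ) / 2) ^ i.1 * (1 / 2) ^ i.2) atTop
      (nhds (4 * 0 * ∑' i : ℕ × ℕ, ((1 : ℝ) / 2) ^ i.1 * (1 / 2) ^ i.2)) :=
    (h.const_mul 4).mul_const _
  rw [mul_zero, zero_mul] at h2
  obtain ⟨n₁, hn₁⟩ := (h2.eventually (gt_mem_nhds (zero_lt_one' ℝ))).exists_forall_of_atTop
  refine ⟨n₁, fun n hn => ?_⟩
  have := hn₁ n hn
  rw [mul_assoc 4]
  exact this.le

theorem summable_half : Summable (fun i : ℕ × ℕ => ((1 : ℝ) / 2) ^ i.1 * (1 / 2) ^ i.2) := by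
  have h := summable_geometric_of_lt_one (r := (1 : ℝ) / 2) (by norm_num) (by norm_num)
  exact h.mul_of_nonneg h (fun n => by positivity) (fun n => by positivity)

theorem D_le_Z {p q : ℕ} (hp : 1 < p) (hq : 1 < q) : ∃ n₁ : ℕ, ∀ n : ℕ, n₁ ≤ n → ∀ lam : ℝ,
    1 / (n : ℝ) ≤ lam → Real.exp (D p q lam) ≤ Real.exp 1 * Z p q lam (bx n) := by
  classical
  obtain ⟨n₁, hn₁⟩ := tail_small
  refine ⟨n₁ + 1, fun n hn lam hlam => ?_⟩
  have hnpos : (0 : ℝ) < n := by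
    have : 0 < n := by omega
    exact_mod_cast this
  have hl : 0 < lam := lt_of_lt_of_le (by positivity) hlam
  rw [Z_eq_exp, ← Real.exp_add]
  refine Real.exp_le_exp.2 ?_
  have hs1 : Summable (fun i : ℕ × ℕ => if i ∈ bx n then g (lam * v p q i) else 0) :=
    summable_of_ne_finset_zero (s := bx n) (fun i hi => by rw [if_neg hi])
  have hs2 := summable_half.mul_left (4 * (n : ℝ) ^ 2 * (1 / 2) ^ n)
  have hpt : ∀ i : ℕ × ℕ, g (lam * v p q i) ≤ (if i ∈ bx n then g (lam * v p q i) else 0) +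
      4 * (n : ℝ) ^ 2 * (1 / 2) ^ n * (((1 : ℝ) / 2) ^ i.1 * (1 / 2) ^ i.2) := by
    intro i
    by_cases hi : i ∈ bx n
    · rw [if_pos hi]
      have : 0 ≤ 4 * (n : ℝ) ^ 2 * (1 / 2) ^ n * (((1 : ℝ) / 2) ^ i.1 * (1 / 2) ^ i.2) := by
        positivity
      linarith
    · rw [if_neg hi, zero_add]
      refine (g_v_le hp hq hl i).trans ?_
      have h1 : n ≤ i.1 + i.2 := by
        unfold bx at hi
        rw [mem_product, mem_range, mem_range] at hi
        omega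
      have h2 : ((1 : ℝ) / 4) ^ i.1 * (1 / 4) ^ i.2 =
          (1 / 2) ^ (i.1 + i.2) * ((1 / 2) ^ i.1 * (1 / 2) ^ i.2) := by
        rw [← pow_add, ← pow_add, ← mul_pow]
        norm_num
      have h3 : ((1 : ℝ) / 2) ^ (i.1 + i.2) ≤ (1 / 2) ^ n :=
        pow_le_pow_of_le_one (by norm_num) (by norm_num) h1
      have h4 : 4 / lam ^ 2 ≤ 4 * (n : ℝ) ^ 2 := by
        rw [div_le_iff₀ (by positivity)]
        have h5 : 1 ≤ n * lam := by
          rw [div_le_iff₀ hnpos] at hlam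
          linarith
        have h6 : 1 ≤ (n * lam) ^ 2 := one_le_pow₀ h5
        nlinarith
      rw [h2]
      calc 4 / lam ^ 2 * ((1 / 2) ^ (i.1 + i.2) * ((1 / 2) ^ i.1 * (1 / 2) ^ i.2))
          ≤ 4 * (n : ℝ) ^ 2 * ((1 / 2) ^ n * ((1 / 2) ^ i.1 * (1 / 2) ^ i.2)) := by
            refine mul_le_mul h4 ?_ (by positivity) (by positivity)
            exact mul_le_mul_of_nonneg_right h3 (by positivity)
        _ = _ := by ring
  have h7 : D p q lam ≤ ∑ i ∈ bx n, g (lam * v p q i) +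
      4 * (n : ℝ) ^ 2 * (1 / 2) ^ n * ∑' i : ℕ × ℕ, ((1 : ℝ) / 2) ^ i.1 * (1 / 2) ^ i.2 := by
    unfold D
    refine ((summable_g_v hp hq hl).tsum_le_tsum hpt (hs1.add hs2)).trans (le_of_eq ?_)
    rw [hs1.tsum_add hs2, tsum_mul_left]
    congr 1
    rw [tsum_eq_sum (s := bx n) (fun i hi => by rw [if_neg hi])]
    exact sum_congr rfl (fun i hi => by rw [if_pos hi])
  have h8 := hn₁ n (by omega)
  linarith

/-- the lower bound for all large `n` -/
theorem lower {p q : ℕ} (hp : 1 < p) (hq : 1 < q) (h : Nat.Coprime p q) (ε δ : ℝ) (hε : 0 < ε)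
    (hδ : 0 < δ) : ∃ n₂ : ℕ, 1 ≤ n₂ ∧ ∀ n : ℕ, n₂ ≤ n → ∃ lam : ℝ, 0 < lam ∧ lam ≤ δ ∧
      1 / (n : ℝ) ≤ lam ∧ lam ≤ 16 * Real.log (1 + n) / n ∧
      Real.exp (lam * n) * Real.exp (D p q lam) * lam ^ (1 + ε) ≤ Real.exp 1 * f p q n := by
  obtain ⟨T₁, hT₁, hT⟩ := lowC hp hq h ε hε
  obtain ⟨n₁, hn₁⟩ := exists_lam hp hq
  obtain ⟨n₂, hn₂⟩ := D_le_Z hp hq
  have hlim : Tendsto (fun n : ℕ => 16 * Real.log (1 + n) / (n : ℝ)) atTop (nhds 0) := by
    have h1 : Tendsto (fun x : ℝ => Real.log x / x) atTop (nhds 0) := by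
      have := Real.tendsto_pow_log_div_mul_add_atTop 1 0 1 one_ne_zero
      simpa using this
    have h2 : Tendsto (fun n : ℕ => (1 : ℝ) + n) atTop atTop :=
      tendsto_atTop_add_const_left _ _ tendsto_natCast_atTop_atTop
    have h3 := h1.comp h2
    have h4 : Tendsto (fun n : ℕ => 32 * (Real.log (1 + n) / (1 + (n : ℝ)))) atTop (nhds 0) := by
      have := h3.const_mul 32
      rw [mul_zero] at this
      exact this
    refine squeeze_zero' ?_ ?_ h4
    · exact Eventually.of_forall (fun n => by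
        have : 0 ≤ Real.log (1 + n) := Real.log_nonneg (by
          have : (0 : ℝ) ≤ n := Nat.cast_nonneg n
          linarith)
        positivity)
    · filter_upwards [eventually_ge_atTop 1] with n hn
      have hn' : (1 : ℝ) ≤ n := by exact_mod_cast hn
      have : 0 ≤ Real.log (1 + n) := Real.log_nonneg (by linarith)
      rw [mul_div_assoc', div_le_div_iff₀ (by linarith) (by linarith)]
      nlinarith
  obtain ⟨n₃, hn₃⟩ := (hlim.eventually (gt_mem_nhds (show (0 : ℝ) < min δ (Real.exp (-T₁)) from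
    lt_min hδ (Real.exp_pos _)))).exists_forall_of_atTop
  refine ⟨n₁ + n₂ + n₃ + 1, by omega, fun n hn => ?_⟩
  obtain ⟨lam, hl1, hl2, hl3⟩ := hn₁ n (by omega)
  have hnpos : (0 : ℝ) < n := by
    have : 0 < n := by omega
    exact_mod_cast this
  have hl : 0 < lam := lt_of_lt_of_le (by positivity) hl1
  have hlt := hn₃ n (by omega)
  have hlδ : lam ≤ δ := (hl2.trans hlt.le).trans (min_le_left _ _)
  have hlT : lam ≤ Real.exp (-T₁) := (hl2.trans hlt.le).trans (min_le_right _ _)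
  refine ⟨lam, hl, hlδ, hl1, hl2, ?_⟩
  have h1 : T₁ ≤ Real.log (1 / lam) := by
    rw [one_div, Real.log_inv, le_neg]
    have := Real.log_le_log hl hlT
    rwa [Real.log_exp] at this
  have h2 := hT lam hl h1 n hl1 hl3
  have h3 := hn₂ n (by omega) lam hl1
  calc Real.exp (lam * n) * Real.exp (D p q lam) * lam ^ (1 + ε)
      ≤ Real.exp (lam * n) * (Real.exp 1 * Z p q lam (bx n)) * lam ^ (1 + ε) := by
        refine mul_le_mul_of_nonneg_right ?_ (by positivity)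
        exact mul_le_mul_of_nonneg_left h3 (by positivity)
    _ = Real.exp 1 * (Real.exp (lam * n) * Z p q lam (bx n) * lam ^ (1 + ε)) := by ring
    _ ≤ _ := mul_le_mul_of_nonneg_left h2 (Real.exp_pos _).le

/-- the exponent -/
noncomputable def c (p q l : ℕ) : ℝ := Real.log 2 * Real.log l / (Real.log p * Real.log q)

theorem c_eq (p q l : ℕ) : c p q l = c0 p q * Real.log l := by
  unfold c c0
  ring

theorem growth_upper {p q : ℕ} (hp : 1 < p) (hq : 1 < q) (h : Nat.Coprime p q) {l : ℕ}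
    (hl : 1 ≤ l) (ε : ℝ) (hε : 0 < ε) : ∃ C : ℝ, 0 < C ∧ ∃ n₀ : ℕ, ∀ n : ℕ, n₀ ≤ n →
    (f p q (l * n) : ℝ) ≤ C * (n : ℝ) ^ (c p q l + ε) * f p q n := by
  set ε₁ := min (ε / 3) 1 with hε₁
  have hε1 : 0 < ε₁ := lt_min (by linarith) one_pos
  have hε1' : ε₁ ≤ ε / 3 := min_le_left _ _
  have hl' : (1 : ℝ) ≤ l := by exact_mod_cast hl
  have hll : 0 ≤ Real.log l := Real.log_nonneg hl'
  have hcnn : 0 ≤ c p q l := by
    unfold c
    have h1 : 0 < Real.log p := Real.log_pos (by exact_mod_cast hp)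
    have h2 : 0 < Real.log q := Real.log_pos (by exact_mod_cast hq)
    have h3 : 0 < Real.log 2 := Real.log_pos (by norm_num)
    positivity
  obtain ⟨C₁, hC₁, hU⟩ := upper hp hq h ε₁ hε1 (min_le_right _ _)
  obtain ⟨C₂, hC₂, hD⟩ := D_growth hp hq h (Real.log l) ε₁ hε1
  obtain ⟨n₂, hn₂, hL⟩ := lower hp hq h ε₁ (min 1 (Real.exp (-C₂))) hε1
    (lt_min one_pos (Real.exp_pos _))
  refine ⟨C₁ * Real.exp C₂ * Real.exp 1, by positivity, n₂, fun n hn => ?_⟩
  obtain ⟨lam, hlp, hlδ, hl1, _, hlow⟩ := hL n hn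
  have hlam1 : lam ≤ 1 := hlδ.trans (min_le_left _ _)
  have hlamC : lam ≤ Real.exp (-C₂) := hlδ.trans (min_le_right _ _)
  have hnpos : (0 : ℝ) < n := by
    have : 0 < n := by omega
    exact_mod_cast this
  have hup := hU (lam / l) (by positivity) (by
    rw [div_le_one (by linarith)]
    linarith) (l * n)
  have e1 : lam / l * ((l * n : ℕ) : ℝ) = lam * n := by
    push_cast
    field_simp
  rw [e1] at hup
  -- the exponent `t`
  set t := -Real.log lam with ht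
  have e2 : Real.exp (-t) = lam := by rw [ht, neg_neg, Real.exp_log hlp]
  have e3 : Real.exp (-(t + Real.log l)) = lam / l := by
    rw [neg_add, Real.exp_add, e2, Real.exp_neg, Real.exp_log (by linarith)]
    rfl
  have htC : C₂ ≤ t := by
    rw [ht, le_neg, ← Real.log_exp (-C₂)]
    exact Real.log_le_log hlp hlamC
  have hg := (hD t htC).1
  rw [e2, e3, ← c_eq] at hg
  have h1 : Real.exp (D p q (lam / l)) ≤ Real.exp (D p q lam) * (lam ^ (-(c p q l + ε₁)) *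
      Real.exp C₂) := by
    have e4 : lam ^ (-(c p q l + ε₁)) = Real.exp ((c p q l + ε₁) * t) := by
      rw [← e2, ← Real.exp_mul]
      congr 1; ring
    rw [e4, ← Real.exp_add, ← Real.exp_add]
    exact Real.exp_le_exp.2 (by linarith)
  have h2 : (lam / l) ^ (1 - ε₁) ≤ lam ^ (1 - ε₁) := by
    refine Real.rpow_le_rpow (by positivity) (div_le_self hlp.le hl') ?_
    have : ε₁ ≤ 1 := min_le_right _ _
    linarith
  have h3 : (f p q (l * n) : ℝ) ≤ C₁ * Real.exp (lam * n) * (Real.exp (D p q lam) *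
      (lam ^ (-(c p q l + ε₁)) * Real.exp C₂)) * lam ^ (1 - ε₁) := by
    refine hup.trans ?_
    refine mul_le_mul ?_ h2 (by positivity) (by positivity)
    exact mul_le_mul_of_nonneg_left h1 (by positivity)
  have e5 : lam ^ (-(c p q l + ε₁)) * lam ^ (1 - ε₁) =
      lam ^ (1 + ε₁) * lam ^ (-(c p q l + 3 * ε₁)) := by
    rw [← Real.rpow_add hlp, ← Real.rpow_add hlp]
    congr 1; ring
  have h4 : lam ^ (-(c p q l + 3 * ε₁)) ≤ (n : ℝ) ^ (c p q l + ε) := by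
    calc lam ^ (-(c p q l + 3 * ε₁)) ≤ (1 / (n : ℝ)) ^ (-(c p q l + 3 * ε₁)) :=
          Real.rpow_le_rpow_of_nonpos (by positivity) hl1 (by linarith)
      _ = (n : ℝ) ^ (c p q l + 3 * ε₁) := by
          rw [one_div, Real.inv_rpow hnpos.le, Real.rpow_neg hnpos.le, inv_inv]
      _ ≤ (n : ℝ) ^ (c p q l + ε) := by
          refine Real.rpow_le_rpow_of_exponent_le ?_ (by linarith)
          have : 1 ≤ n := by omega
          exact_mod_cast this
  have hf0 : (0 : ℝ) ≤ f p q n := by positivity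
  calc (f p q (l * n) : ℝ) ≤ C₁ * Real.exp (lam * n) * (Real.exp (D p q lam) *
      (lam ^ (-(c p q l + ε₁)) * Real.exp C₂)) * lam ^ (1 - ε₁) := h3
    _ = C₁ * Real.exp C₂ * (Real.exp (lam * n) * Real.exp (D p q lam)) *
        (lam ^ (-(c p q l + ε₁)) * lam ^ (1 - ε₁)) := by ring
    _ = C₁ * Real.exp C₂ * (Real.exp (lam * n) * Real.exp (D p q lam) * lam ^ (1 + ε₁)) *
        lam ^ (-(c p q l + 3 * ε₁)) := by rw [e5]; ring
    _ ≤ C₁ * Real.exp C₂ * (Real.exp 1 * f p q n) * (n : ℝ) ^ (c p q l + ε) := by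
        refine mul_le_mul ?_ h4 (by positivity) (by positivity)
        exact mul_le_mul_of_nonneg_left hlow (by positivity)
    _ = _ := by ring

theorem growth_lower {p q : ℕ} (hp : 1 < p) (hq : 1 < q) (h : Nat.Coprime p q) {l : ℕ}
    (hl : 2 ≤ l) (ε : ℝ) (hε : 0 < ε) : ∃ C : ℝ, 0 < C ∧ ∃ n₀ : ℕ, ∀ n : ℕ, n₀ ≤ n →
    C * (n : ℝ) ^ (c p q l - ε) * f p q n ≤ (f p q (l * n) : ℝ) := by
  have hl' : (2 : ℝ) ≤ l := by exact_mod_cast hl
  have hlpos : (0 : ℝ) < l := by linarith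
  have hll : 0 < Real.log l := Real.log_pos (by linarith)
  have hcpos : 0 < c p q l := by
    unfold c
    have h1 : 0 < Real.log p := Real.log_pos (by exact_mod_cast hp)
    have h2 : 0 < Real.log q := Real.log_pos (by exact_mod_cast hq)
    have h3 : 0 < Real.log 2 := Real.log_pos (by norm_num)
    positivity
  set cc := c p q l with hcc
  set ε₁ := min (min (ε / 6) (cc / 3)) 1 with hε₁
  have hε1 : 0 < ε₁ := lt_min (lt_min (by linarith) (by linarith)) one_pos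
  have hε1a : ε₁ ≤ ε / 6 := (min_le_left _ _).trans (min_le_left _ _)
  have hε1b : ε₁ ≤ cc / 3 := (min_le_left _ _).trans (min_le_right _ _)
  have hε1c : ε₁ ≤ 1 := min_le_right _ _
  set ε₂ := min (ε / (2 * cc)) 1 with hε₂
  have hε2 : 0 < ε₂ := lt_min (by positivity) one_pos
  have hε2a : ε₂ * cc ≤ ε / 2 := by
    calc ε₂ * cc ≤ ε / (2 * cc) * cc := mul_le_mul_of_nonneg_right (min_le_left _ _) hcpos.le
      _ = ε / 2 := by field_simp
  have hε2b : ε₂ ≤ 1 := min_le_right _ _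
  obtain ⟨C₁, hC₁, hU⟩ := upper hp hq h ε₁ hε1 hε1c
  obtain ⟨C₂, hC₂, hD⟩ := D_growth hp hq h (Real.log l) ε₁ hε1
  obtain ⟨n₂, hn₂, hL⟩ := lower hp hq h ε₁ (min 1 (Real.exp (-C₂)) / l) hε1
    (div_pos (lt_min one_pos (Real.exp_pos _)) hlpos)
  -- logarithms
  obtain ⟨n₃, hn₃⟩ : ∃ n₃ : ℕ, ∀ n : ℕ, n₃ ≤ n →
      16 * Real.log (1 + ((l * n : ℕ) : ℝ)) ≤ (n : ℝ) ^ ε₂ := by
    have h1 := (isLittleO_log_rpow_atTop hε2).def (show (0 : ℝ) < 1 / (16 * (2 * l)) by positivity)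
    have h2 : Tendsto (fun n : ℕ => (1 : ℝ) + ((l * n : ℕ) : ℝ)) atTop atTop := by
      refine tendsto_atTop_add_const_left _ _ ?_
      refine tendsto_natCast_atTop_atTop.comp ?_
      exact tendsto_id.const_mul_atTop' (by omega)
    obtain ⟨n₃, hn₃⟩ := (h2.eventually h1).exists_forall_of_atTop
    refine ⟨n₃ + 1, fun n hn => ?_⟩
    have h3 := hn₃ n (by omega)
    have hn1 : (1 : ℝ) ≤ n := by
      have : 1 ≤ n := by omega
      exact_mod_cast this
    have h4 : (0 : ℝ) ≤ Real.log (1 + ((l * n : ℕ) : ℝ)) := Real.log_nonneg (by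
      have : (0 : ℝ) ≤ ((l * n : ℕ) : ℝ) := Nat.cast_nonneg _
      linarith)
    rw [Real.norm_of_nonneg h4, Real.norm_of_nonneg (by positivity)] at h3
    have h5 : (1 + ((l * n : ℕ) : ℝ)) ^ ε₂ ≤ (2 * l) * (n : ℝ) ^ ε₂ := by
      have h6 : (1 + ((l * n : ℕ) : ℝ)) ≤ 2 * l * n := by
        push_cast
        nlinarith
      calc (1 + ((l * n : ℕ) : ℝ)) ^ ε₂ ≤ (2 * l * n : ℝ) ^ ε₂ :=
            Real.rpow_le_rpow (by positivity) h6 hε2.le
        _ = (2 * l) ^ ε₂ * (n : ℝ) ^ ε₂ := Real.mul_rpow (by positivity) (by positivity)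
        _ ≤ (2 * l) * (n : ℝ) ^ ε₂ := by
            refine mul_le_mul_of_nonneg_right ?_ (by positivity)
            have h7 : (2 * l : ℝ) ^ ε₂ ≤ (2 * l : ℝ) ^ (1 : ℝ) :=
              Real.rpow_le_rpow_of_exponent_le (by linarith) hε2b
            rwa [Real.rpow_one] at h7
    have h8 : 1 / (16 * (2 * (l : ℝ))) * (1 + ((l * n : ℕ) : ℝ)) ^ ε₂ ≤
        1 / (16 * (2 * (l : ℝ))) * ((2 * l) * (n : ℝ) ^ ε₂) :=
      mul_le_mul_of_nonneg_left h5 (by positivity)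
    have e9 : 1 / (16 * (2 * (l : ℝ))) * ((2 * l) * (n : ℝ) ^ ε₂) = (n : ℝ) ^ ε₂ / 16 := by
      field_simp
    rw [e9] at h8
    linarith
  refine ⟨1 / (C₁ * Real.exp C₂ * Real.exp 1 * (l : ℝ) ^ (1 + ε₁)), by positivity, n₂ + n₃,
    fun n hn => ?_⟩
  have hnpos : (0 : ℝ) < n := by
    have : 0 < n := by omega
    exact_mod_cast this
  have hlnn : n₂ ≤ l * n := by
    calc n₂ ≤ n := by omega
      _ = 1 * n := (one_mul n).symm
      _ ≤ l * n := Nat.mul_le_mul_right _ (by omega)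
  obtain ⟨lam, hlp, hlδ, hl1, hl2, hlow⟩ := hL (l * n) hlnn
  set mu := (l : ℝ) * lam with hmu
  have hmup : 0 < mu := by positivity
  have hmuδ : mu ≤ min 1 (Real.exp (-C₂)) := by
    rw [hmu]
    rw [le_div_iff₀ hlpos] at hlδ
    linarith
  have hmu1 : mu ≤ 1 := hmuδ.trans (min_le_left _ _)
  have hmuC : mu ≤ Real.exp (-C₂) := hmuδ.trans (min_le_right _ _)
  have hup := hU mu hmup hmu1 n
  have e1 : lam * ((l * n : ℕ) : ℝ) = mu * n := by
    rw [hmu]; push_cast; ring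
  rw [e1] at hlow
  set t := -Real.log mu with ht
  have e2 : Real.exp (-t) = mu := by rw [ht, neg_neg, Real.exp_log hmup]
  have e3 : Real.exp (-(t + Real.log l)) = lam := by
    rw [neg_add, Real.exp_add, e2, Real.exp_neg, Real.exp_log hlpos, hmu]
    field_simp
  have htC : C₂ ≤ t := by
    rw [ht, le_neg, ← Real.log_exp (-C₂)]
    exact Real.log_le_log hmup hmuC
  have hg := (hD t htC).2
  rw [e2, e3, ← c_eq, ← hcc] at hg
  have h1 : Real.exp (D p q mu) * mu ^ (-(cc - ε₁)) ≤ Real.exp (D p q lam) * Real.exp C₂ := by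
    have e4 : mu ^ (-(cc - ε₁)) = Real.exp ((cc - ε₁) * t) := by
      rw [← e2, ← Real.exp_mul]
      congr 1; ring
    rw [e4, ← Real.exp_add, ← Real.exp_add]
    exact Real.exp_le_exp.2 (by linarith)
  -- the size of `mu`
  have hmun : mu ≤ (n : ℝ) ^ (ε₂ - 1) := by
    have h5 : mu ≤ 16 * Real.log (1 + ((l * n : ℕ) : ℝ)) / n := by
      rw [hmu]
      calc (l : ℝ) * lam ≤ l * (16 * Real.log (1 + ((l * n : ℕ) : ℝ)) / ((l * n : ℕ) : ℝ)) :=
            mul_le_mul_of_nonneg_left hl2 hlpos.le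
        _ = _ := by push_cast; field_simp
    refine h5.trans ?_
    rw [Real.rpow_sub_one hnpos.ne']
    exact div_le_div_of_nonneg_right (hn₃ n (by omega)) hnpos.le
  have h6 : (n : ℝ) ^ (cc - ε) ≤ mu ^ (-(cc - 3 * ε₁)) := by
    calc (n : ℝ) ^ (cc - ε) ≤ (n : ℝ) ^ ((ε₂ - 1) * (-(cc - 3 * ε₁))) := by
          refine Real.rpow_le_rpow_of_exponent_le ?_ ?_
          · have : 1 ≤ n := by omega
            exact_mod_cast this
          · nlinarith
      _ = ((n : ℝ) ^ (ε₂ - 1)) ^ (-(cc - 3 * ε₁)) := Real.rpow_mul hnpos.le _ _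
      _ ≤ mu ^ (-(cc - 3 * ε₁)) :=
          Real.rpow_le_rpow_of_nonpos hmup hmun (by linarith)
  have hf0 : (0 : ℝ) ≤ f p q n := by positivity
  have e7 : mu ^ (-(cc - 3 * ε₁)) * mu ^ (1 - ε₁) = mu ^ (-(cc - ε₁)) * mu ^ (1 + ε₁) := by
    rw [← Real.rpow_add hmup, ← Real.rpow_add hmup]
    congr 1; ring
  have e8 : mu ^ (1 + ε₁) = (l : ℝ) ^ (1 + ε₁) * lam ^ (1 + ε₁) :=
    Real.mul_rpow hlpos.le hlp.le
  rw [mul_assoc, one_div, inv_mul_le_iff₀ (by positivity)]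
  calc (n : ℝ) ^ (cc - ε) * f p q n ≤ mu ^ (-(cc - 3 * ε₁)) *
        (C₁ * Real.exp (mu * n) * Real.exp (D p q mu) * mu ^ (1 - ε₁)) :=
        mul_le_mul h6 hup hf0 (by positivity)
    _ = C₁ * Real.exp (mu * n) * Real.exp (D p q mu) *
        (mu ^ (-(cc - 3 * ε₁)) * mu ^ (1 - ε₁)) := by ring
    _ = C₁ * Real.exp (mu * n) * (Real.exp (D p q mu) * mu ^ (-(cc - ε₁))) *
        ((l : ℝ) ^ (1 + ε₁) * lam ^ (1 + ε₁)) := by rw [e7, e8]; ring
    _ ≤ C₁ * Real.exp (mu * n) * (Real.exp (D p q lam) * Real.exp C₂) *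
        ((l : ℝ) ^ (1 + ε₁) * lam ^ (1 + ε₁)) := by
        refine mul_le_mul_of_nonneg_right ?_ (by positivity)
        exact mul_le_mul_of_nonneg_left h1 (by positivity)
    _ = C₁ * Real.exp C₂ * (l : ℝ) ^ (1 + ε₁) *
        (Real.exp (mu * n) * Real.exp (D p q lam) * lam ^ (1 + ε₁)) := by ring
    _ ≤ C₁ * Real.exp C₂ * (l : ℝ) ^ (1 + ε₁) * (Real.exp 1 * f p q (l * n)) :=
        mul_le_mul_of_nonneg_left hlow (by positivity)
    _ = _ := by ring

end Pool.Agent.Q253.Bir
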