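import Pool.Agent.Q253.Bir.Basic

/-! The number of digit blocks with a given sum modulo `p^k`. -/

set_option autoImplicit false

open Finset

namespace Pool.Agent.Q253.Bir

/-- subsets of a disjoint union -/
theorem sum_pow_union {ι M : Type*} [DecidableEq ι] [AddCommMonoid M] (I J : Finset ι)
    (h : Disjoint I J) (F : Finset ι → M) :
    ∑ A ∈ (I ∪ J).powerset, F A = ∑ A ∈ I.powerset, ∑ A' ∈ J.powerset, F (A ∪ A') := by
  induction J using Finset.induction_on generalizing F with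
  | empty => simp
  | insert j J hj ih =>
    have h1 : Disjoint I J := h.mono_right (subset_insert _ _)
    have h2 : j ∉ I := fun hh => disjoint_left.1 h hh (mem_insert_self _ _)
    have h3 : j ∉ I ∪ J := by
      rw [mem_union]; tauto
    rw [union_insert, sum_powerset_insert h3, ih h1, ih h1, ← sum_add_distrib]
    refine sum_congr rfl (fun A _ => ?_)
    rw [sum_powerset_insert hj]
    congr 1
    refine sum_congr rfl (fun A' _ => ?_)
    rw [union_insert]

/-- the number of subsets of a set with `n` elements whose size is `r` modulo `p` -/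
def u (p : ℕ) : ℕ → ZMod p → ℝ
  | 0, r => if r = 0 then 1 else 0
  | n + 1, r => u p n r + u p n (r - 1)

theorem u_eq {ι : Type*} [DecidableEq ι] (p : ℕ) (J : Finset ι) (r : ZMod p) :
    ∑ X ∈ J.powerset, (if ((X.card : ℕ) : ZMod p) = r then (1 : ℝ) else 0) = u p J.card r := by
  induction J using Finset.induction_on generalizing r with
  | empty =>
    rw [powerset_empty, sum_singleton, card_empty, Nat.cast_zero]
    show (if (0 : ZMod p) = r then (1 : ℝ) else 0) = if r = 0 then 1 else 0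
    by_cases h : r = 0
    · rw [if_pos h.symm, if_pos h]
    · rw [if_neg (fun hh => h hh.symm), if_neg h]
  | insert j J hj ih =>
    rw [sum_powerset_insert hj, card_insert_of_notMem hj, u, ← ih, ← ih]
    congr 1
    refine sum_congr rfl (fun X hX => ?_)
    have h1 : j ∉ X := fun hh => hj (mem_powerset.1 hX hh)
    rw [card_insert_of_notMem h1]
    have h2 : (((X.card + 1 : ℕ) : ZMod p) = r) ↔ (((X.card : ℕ) : ZMod p) = r - 1) := by
      push_cast
      constructor
      · intro h; rw [← h]; ring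
      · intro h; rw [h]; ring
    simp only [h2]

theorem u_sum (p : ℕ) [NeZero p] (n : ℕ) : ∑ r : ZMod p, u p n r = 2 ^ n := by
  induction n with
  | zero => simp [u]
  | succ n ih =>
    simp only [u]
    rw [sum_add_distrib, ih]
    have h1 : ∑ r : ZMod p, u p n (r - 1) = ∑ r : ZMod p, u p n r :=
      (Equiv.subRight (1 : ZMod p)).sum_comp (fun r => u p n r)
    rw [h1, ih]
    ring

theorem u_spread (p : ℕ) [NeZero p] (n : ℕ) (m : ℝ) (hm : ∀ r, m * 2 ^ n ≤ u p n r) (r : ZMod p)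
    (j : ℕ) : (∀ s, m * 2 ^ (n + j) ≤ u p (n + j) s) ∧
      ∀ i ≤ j, u p n r + (2 ^ j - 1) * (m * 2 ^ n) ≤ u p (n + j) (r + (i : ZMod p)) := by
  induction j with
  | zero =>
    refine ⟨by simpa using hm, fun i hi => ?_⟩
    have : i = 0 := by omega
    subst this
    simp
  | succ j ih =>
    obtain ⟨ih1, ih2⟩ := ih
    have h0 : ∀ s, m * 2 ^ (n + (j + 1)) ≤ u p (n + (j + 1)) s := by
      intro s
      rw [← add_assoc, u]
      have h1 := ih1 s
      have h2 := ih1 (s - 1)
      have h3 : m * 2 ^ (n + j + 1) = m * 2 ^ (n + j) + m * 2 ^ (n + j) := by ring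
      linarith
    refine ⟨h0, fun i hi => ?_⟩
    rw [← add_assoc, u]
    have h4 : (2 ^ (j + 1) - 1) * (m * 2 ^ n) = (2 ^ j - 1) * (m * 2 ^ n) + m * 2 ^ (n + j) := by
      rw [pow_add, pow_add]; ring
    rw [h4]
    rcases Nat.lt_or_ge i (j + 1) with hlt | hge
    · have h5 := ih2 i (by omega)
      have h6 := ih1 (r + (i : ZMod p) - 1)
      linarith
    · have h7 : i = j + 1 := by omega
      subst h7
      have h5 := ih2 j le_rfl
      have h6 := ih1 (r + ((j + 1 : ℕ) : ZMod p))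
      have h8 : r + ((j + 1 : ℕ) : ZMod p) - 1 = r + (j : ZMod p) := by push_cast; ring
      rw [h8]
      linarith

theorem u_spread' (p : ℕ) [NeZero p] (n : ℕ) (m : ℝ) (hm : ∀ r, m * 2 ^ n ≤ u p n r)
    (r s : ZMod p) : u p n r + (2 ^ (p - 1) - 1) * (m * 2 ^ n) ≤ u p (n + (p - 1)) s := by
  have h1 := (u_spread p n m hm r (p - 1)).2 (s - r).val (by
    have := ZMod.val_lt (s - r)
    omega)
  rw [ZMod.natCast_zmod_val] at h1
  have h2 : r + (s - r) = s := by ring
  rwa [h2] at h1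

theorem u_max (p : ℕ) [NeZero p] (n : ℕ) (M : ℝ) (hM : ∀ r, u p n r ≤ M * 2 ^ n) (j : ℕ) :
    ∀ r, u p (n + j) r ≤ M * 2 ^ (n + j) := by
  induction j with
  | zero => simpa using hM
  | succ j ih =>
    intro r
    rw [← add_assoc, u]
    have h1 := ih r
    have h2 := ih (r - 1)
    have h3 : M * 2 ^ (n + j + 1) = M * 2 ^ (n + j) + M * 2 ^ (n + j) := by ring
    linarith

/-- the oscillation tends to zero -/
theorem u_osc (p : ℕ) [NeZero p] (k : ℕ) : ∀ r s, u p (k * (p - 1)) r - u p (k * (p - 1)) s ≤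
    (1 - 1 / 2 ^ (p - 1)) ^ k * 2 ^ (k * (p - 1)) := by
  induction k with
  | zero =>
    intro r s
    simp only [zero_mul, u, pow_zero, mul_one]
    split_ifs <;> norm_num
  | succ k ih =>
    obtain ⟨a, ha⟩ := Finite.exists_min (u p (k * (p - 1)))
    obtain ⟨b, hb⟩ := Finite.exists_max (u p (k * (p - 1)))
    set n := k * (p - 1) with hn
    have h2n : (0 : ℝ) < 2 ^ n := by positivity
    intro r s
    have h1 := u_spread' p n (u p n a / 2 ^ n) (fun r => by
      rw [div_mul_cancel₀ _ h2n.ne']; exact ha r) b s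
    have h2 := u_max p n (u p n b / 2 ^ n) (fun r => by
      rw [div_mul_cancel₀ _ h2n.ne']; exact hb r) (p - 1) r
    have h3 := ih b a
    rw [div_mul_cancel₀ _ h2n.ne'] at h1
    have h4 : (k + 1) * (p - 1) = n + (p - 1) := by rw [hn]; ring
    rw [h4]
    have h5 : u p n b / 2 ^ n * 2 ^ (n + (p - 1)) = u p n b * 2 ^ (p - 1) := by
      rw [pow_add]; field_simp
    rw [h5] at h2
    have h6 : (0 : ℝ) < 2 ^ (p - 1) := by positivity
    calc u p (n + (p - 1)) r - u p (n + (p - 1)) s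
        ≤ u p n b * 2 ^ (p - 1) - (u p n b + (2 ^ (p - 1) - 1) * u p n a) := by linarith
      _ = (2 ^ (p - 1) - 1) * (u p n b - u p n a) := by ring
      _ ≤ (2 ^ (p - 1) - 1) * ((1 - 1 / 2 ^ (p - 1)) ^ k * 2 ^ n) := by
          refine mul_le_mul_of_nonneg_left h3 ?_
          have : (1 : ℝ) ≤ 2 ^ (p - 1) := one_le_pow₀ (by norm_num)
          linarith
      _ = (1 - 1 / 2 ^ (p - 1)) ^ (k + 1) * 2 ^ (n + (p - 1)) := by
          rw [pow_succ, pow_add]
          field_simp

/-- equidistribution -/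
theorem u_equi (p : ℕ) [NeZero p] (η : ℝ) (hη : 0 < η) : ∃ B : ℕ, ∀ r,
    (1 - η) * (2 ^ B / p) ≤ u p B r ∧ u p B r ≤ (1 + η) * (2 ^ B / p) := by
  have hp : (0 : ℝ) < p := by exact_mod_cast Nat.pos_of_ne_zero (NeZero.ne p)
  have h6 : (0 : ℝ) < 2 ^ (p - 1) := by positivity
  have h7 : (1 : ℝ) ≤ 2 ^ (p - 1) := one_le_pow₀ (by norm_num)
  obtain ⟨k, hk⟩ := exists_pow_lt_of_lt_one (show 0 < η / p by positivity)
    (show (1 : ℝ) - 1 / 2 ^ (p - 1) < 1 by
      have : (0 : ℝ) < 1 / 2 ^ (p - 1) := by positivity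
      linarith)
  refine ⟨k * (p - 1), fun r => ?_⟩
  have h1 := u_osc p k
  set n := k * (p - 1) with hn
  have h2n : (0 : ℝ) < 2 ^ n := by positivity
  have h2 : (1 - 1 / 2 ^ (p - 1)) ^ k * 2 ^ n ≤ η / p * 2 ^ n :=
    mul_le_mul_of_nonneg_right hk.le h2n.le
  have hs := u_sum p n
  have hc : (∑ _r : ZMod p, (1 : ℝ)) = p := by
    rw [sum_const, card_univ, ZMod.card, nsmul_eq_mul, mul_one]
  have h3 : (2 : ℝ) ^ n - p * u p n r ≤ η / p * 2 ^ n * p := by
    rw [← hs, ← hc, sum_mul, ← sum_sub_distrib]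
    calc ∑ s : ZMod p, (u p n s - 1 * u p n r) ≤ ∑ _s : ZMod p, η / p * 2 ^ n := by
          refine sum_le_sum (fun s _ => ?_)
          have := h1 s r
          linarith
      _ = _ := by rw [sum_const, card_univ, ZMod.card, nsmul_eq_mul, hc, hs]; ring
  have h4 : p * u p n r - (2 : ℝ) ^ n ≤ η / p * 2 ^ n * p := by
    rw [← hs, ← hc, sum_mul, ← sum_sub_distrib]
    calc ∑ s : ZMod p, (1 * u p n r - u p n s) ≤ ∑ _s : ZMod p, η / p * 2 ^ n := by
          refine sum_le_sum (fun s _ => ?_)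
          have := h1 r s
          linarith
      _ = _ := by rw [sum_const, card_univ, ZMod.card, nsmul_eq_mul, hc, hs]; ring
  have h5 : η / p * 2 ^ n * p = η * 2 ^ n := by field_simp
  rw [h5] at h3 h4
  constructor
  · rw [mul_div_assoc', div_le_iff₀ hp]
    linarith
  · rw [mul_div_assoc', le_div_iff₀ hp]
    linarith

/-- the number of sets of digit blocks with a given sum modulo `p^k` -/
noncomputable def N (p Q B k : ℕ) (M : ℤ) : ℝ :=
  ∑ A ∈ (range k ×ˢ range B).powerset,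
    if ((p : ℤ) ^ k ∣ M - ((∑ i ∈ A, v p Q i : ℕ) : ℤ)) then (1 : ℝ) else 0

theorem N_succ {p Q B : ℕ} [NeZero p] (hQ : (Q : ZMod p) = 1) (k : ℕ) (M : ℤ) :
    N p Q B (k + 1) M = ∑ A ∈ (range k ×ˢ range B).powerset,
      if ((p : ℤ) ^ k ∣ M - ((∑ i ∈ A, v p Q i : ℕ) : ℤ)) then
        u p B (((M - ((∑ i ∈ A, v p Q i : ℕ) : ℤ)) / (p : ℤ) ^ k : ℤ) : ZMod p) else 0 := by
  classical
  have hp0 : (p : ℤ) ≠ 0 := by exact_mod_cast NeZero.ne p
  have hpk : (p : ℤ) ^ k ≠ 0 := pow_ne_zero _ hp0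
  have h1 : range (k + 1) ×ˢ range B = (range k ×ˢ range B) ∪ ({k} ×ˢ range B) := by
    ext i
    simp only [mem_product, mem_union, mem_range, mem_singleton]
    constructor
    · rintro ⟨h, h'⟩
      rcases Nat.lt_or_ge i.1 k with h2 | h2
      · exact Or.inl ⟨h2, h'⟩
      · exact Or.inr ⟨by omega, h'⟩
    · rintro (⟨h, h'⟩ | ⟨h, h'⟩)
      · exact ⟨by omega, h'⟩
      · exact ⟨by omega, h'⟩
  have hd : Disjoint (range k ×ˢ range B) ({k} ×ˢ range B) := by
    rw [disjoint_left]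
    intro i h2 h3
    simp only [mem_product, mem_range, mem_singleton] at h2 h3
    omega
  unfold N
  rw [h1, sum_pow_union _ _ hd]
  refine sum_congr rfl (fun A hA => ?_)
  rw [mem_powerset] at hA
  have hsum : ∀ X ∈ (({k} : Finset ℕ) ×ˢ range B).powerset, ∃ t : ℤ,
      ((∑ i ∈ A ∪ X, v p Q i : ℕ) : ℤ) = ((∑ i ∈ A, v p Q i : ℕ) : ℤ) + (p : ℤ) ^ k * t ∧
      (t : ZMod p) = (X.card : ZMod p) := by
    intro X hX
    rw [mem_powerset] at hX
    have hdX : Disjoint A X := (hd.mono_left hA).mono_right hX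
    refine ⟨∑ i ∈ X, (Q : ℤ) ^ i.2, ?_, ?_⟩
    · rw [sum_union hdX]
      push_cast
      congr 1
      rw [mul_sum]
      refine sum_congr rfl (fun i hi => ?_)
      have h4 := hX hi
      simp only [mem_product, mem_singleton] at h4
      simp only [v]
      rw [h4.1]
      push_cast
      ring
    · push_cast
      rw [hQ]
      simp
  by_cases hdiv : (p : ℤ) ^ k ∣ M - ((∑ i ∈ A, v p Q i : ℕ) : ℤ)
  · rw [if_pos hdiv]
    obtain ⟨t, ht⟩ := hdiv
    rw [ht, Int.mul_ediv_cancel_left _ hpk]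
    have hc : (({k} : Finset ℕ) ×ˢ range B).card = B := by simp
    have h5 := u_eq p (({k} : Finset ℕ) ×ˢ range B) (t : ZMod p)
    rw [hc] at h5
    rw [← h5]
    refine sum_congr rfl (fun X hX => ?_)
    obtain ⟨s, hs1, hs2⟩ := hsum X hX
    rw [hs1]
    have h6 : M - (((∑ i ∈ A, v p Q i : ℕ) : ℤ) + (p : ℤ) ^ k * s) = (p : ℤ) ^ k * (t - s) := by
      have : M = ((∑ i ∈ A, v p Q i : ℕ) : ℤ) + (p : ℤ) ^ k * t := by rw [← ht]; ring
      rw [this]; ring
    rw [h6, pow_succ]
    have h7 : ((p : ℤ) ^ k * p ∣ (p : ℤ) ^ k * (t - s)) ↔ ((X.card : ℕ) : ZMod p) = (t : ZMod p) := by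
      rw [mul_dvd_mul_iff_left hpk, ← ZMod.intCast_zmod_eq_zero_iff_dvd, ← hs2]
      push_cast
      rw [sub_eq_zero]
      exact eq_comm
    simp only [h7]
  · rw [if_neg hdiv]
    refine sum_eq_zero (fun X hX => ?_)
    obtain ⟨s, hs1, hs2⟩ := hsum X hX
    rw [if_neg]
    intro h8
    apply hdiv
    have h9 : (p : ℤ) ^ k ∣ M - ((∑ i ∈ A ∪ X, v p Q i : ℕ) : ℤ) :=
      dvd_trans (pow_dvd_pow _ (Nat.le_succ k)) h8
    rw [hs1] at h9
    have h10 : M - ((∑ i ∈ A, v p Q i : ℕ) : ℤ) =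
      (M - (((∑ i ∈ A, v p Q i : ℕ) : ℤ) + (p : ℤ) ^ k * s)) + (p : ℤ) ^ k * s := by ring
    rw [h10]
    exact dvd_add h9 (dvd_mul_right _ _)

theorem N_zero (p Q B : ℕ) (M : ℤ) : N p Q B 0 M = 1 := by
  unfold N
  simp

theorem N_nonneg (p Q B k : ℕ) (M : ℤ) : 0 ≤ N p Q B k M := by
  unfold N
  refine sum_nonneg (fun A _ => ?_)
  split_ifs <;> norm_num

theorem N_bounds {p Q B : ℕ} [NeZero p] (hQ : (Q : ZMod p) = 1) {η : ℝ} (hη : η ≤ 1)
    (hB : ∀ r, (1 - η) * (2 ^ B / p) ≤ u p B r ∧ u p B r ≤ (1 + η) * (2 ^ B / p)) (k : ℕ) :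
    ∀ M : ℤ, ((1 - η) * (2 ^ B / p)) ^ k ≤ N p Q B k M ∧
      N p Q B k M ≤ ((1 + η) * (2 ^ B / p)) ^ k := by
  have hp : (0 : ℝ) < p := by exact_mod_cast Nat.pos_of_ne_zero (NeZero.ne p)
  induction k with
  | zero =>
    intro M
    rw [N_zero]
    simp
  | succ k ih =>
    intro M
    rw [N_succ hQ]
    obtain ⟨ih1, ih2⟩ := ih M
    constructor
    · calc ((1 - η) * (2 ^ B / p)) ^ (k + 1) = ((1 - η) * (2 ^ B / p)) ^ k * ((1 - η) * (2 ^ B / p)) :=
            pow_succ _ _
        _ ≤ N p Q B k M * ((1 - η) * (2 ^ B / p)) := by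
            refine mul_le_mul_of_nonneg_right ih1 ?_
            have : 0 ≤ 1 - η := by linarith
            positivity
        _ = ∑ A ∈ (range k ×ˢ range B).powerset,
            (if ((p : ℤ) ^ k ∣ M - ((∑ i ∈ A, v p Q i : ℕ) : ℤ)) then (1 : ℝ) else 0) *
              ((1 - η) * (2 ^ B / p)) := by
            unfold N
            rw [sum_mul]
        _ ≤ _ := by
            refine sum_le_sum (fun A _ => ?_)
            split_ifs
            · rw [one_mul]
              exact (hB _).1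
            · rw [zero_mul]
    · calc _ ≤ ∑ A ∈ (range k ×ˢ range B).powerset,
            (if ((p : ℤ) ^ k ∣ M - ((∑ i ∈ A, v p Q i : ℕ) : ℤ)) then (1 : ℝ) else 0) *
              ((1 + η) * (2 ^ B / p)) := by
            refine sum_le_sum (fun A _ => ?_)
            split_ifs
            · rw [one_mul]
              exact (hB _).2
            · rw [zero_mul]
        _ = N p Q B k M * ((1 + η) * (2 ^ B / p)) := by
            unfold N
            rw [sum_mul]
        _ ≤ ((1 + η) * (2 ^ B / p)) ^ k * ((1 + η) * (2 ^ B / p)) := by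
            refine mul_le_mul_of_nonneg_right ih2 ?_
            have h1 := (hB 0).1
            have h2 := (hB 0).2
            have h3 : 0 ≤ (1 - η) * ((2 : ℝ) ^ B / p) := by
              have : 0 ≤ 1 - η := by linarith
              positivity
            linarith
        _ = _ := (pow_succ _ _).symm

end Pool.Agent.Q253.Bir
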